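import Pool.Agent.H21.GBC.Tensor

/-!
# Closed forms of the scalar curvature and of `L_2` of `δ + q Jx ⊗ Jx + p x ⊗ x`
-/

open scoped BigOperators

namespace Pool.Agent.H21.GBC
open Pool.Agent.H91.GBC

/-- The scalar curvature `R = R_{ij}^{ij}`. -/
noncomputable def scalCurv {n : ℕ} (g : MatField n) (x : Eu n) : ℝ :=
  ∑ i, ∑ j, curv g i j i j x

/-- `k = ω λ - 2 u (κ + t κ') - u λ κ` with `u = 1 - t P`, `ω = P + t P'`, `λ = 1 + t κ`, and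
`κ' = t (α - A κ) / 2 + A + q'` -/
noncomputable def kh (t P P1 q1 A al κ : ℝ) : ℝ :=
  (P + t * P1) * (1 + t * κ) - 2 * (1 - t * P) * (κ + t * (t * (al - A * κ) / 2 + A + q1))
    - (1 - t * P) * (1 + t * κ) * κ

/-- closed form of `R / 2` -/
noncomputable def rh (t P P1 q q1 A al κ : ℝ) : ℝ :=
  10 * P - 2 * q - 4 * (1 - t * P) * κ + 4 * (P + t * P1) + kh t P P1 q1 A al κ

/-- closed form of `L_2 / 24` -/
noncomputable def lh (t P P1 q q1 A al κ : ℝ) : ℝ :=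
  P ^ 2 - 2 * P * q + 5 * q ^ 2
    + (4 * (q + P - (1 - t * P) * κ + (P + t * P1)) + 2 * kh t P P1 q1 A al κ) * (P - q)
    + 4 * ((q + P - (1 - t * P) * κ) * (P + t * P1) + (1 - t * P) * (1 + t * q) * κ ^ 2)

lemma q1_rel (D : QD) {t : ℝ} (ht : 0 ≤ t) :
    D.q1 t = D.A t * (1 + t * D.q t) + D.q t ^ 2 := by
  have := D.A_mul_X ht; linarith

theorem scalCurv_gg (D E : QD) (x : Eu 6) :
    scalCurv (gg D E) x = 2 * rh (‖x‖ ^ 2) (pP E (‖x‖ ^ 2)) (pP1 E (‖x‖ ^ 2)) (D.q (‖x‖ ^ 2))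
      (D.q1 (‖x‖ ^ 2)) (D.A (‖x‖ ^ 2)) (D.al (‖x‖ ^ 2)) (ka D (‖x‖ ^ 2)) := by
  have h : scalCurv (gg D E) x = scT (tG (cc D E (‖x‖ ^ 2)) x) := by
    unfold scalCurv scT ricT
    simp only [curv_gg]
  rw [h, scT_tG]
  have hq := q1_rel D (sq_nonneg ‖x‖)
  simp only [ga, gb, gc, cc, Matrix.cons_val_zero, Matrix.cons_val_one, Matrix.cons_val]
  unfold k1 k2 k3 rh kh ka
  generalize pP E (‖x‖ ^ 2) = P at *
  generalize pP1 E (‖x‖ ^ 2) = P1 at *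
  generalize D.al (‖x‖ ^ 2) = al at *
  generalize D.A (‖x‖ ^ 2) = A at *
  generalize D.q1 (‖x‖ ^ 2) = q1 at *
  generalize D.q (‖x‖ ^ 2) = q at *
  generalize ‖x‖ ^ 2 = t at *
  rw [hq]
  ring

theorem L2_gg_closed (D E : QD) (x : Eu 6) :
    L2 (gg D E) x = 24 * lh (‖x‖ ^ 2) (pP E (‖x‖ ^ 2)) (pP1 E (‖x‖ ^ 2)) (D.q (‖x‖ ^ 2))
      (D.q1 (‖x‖ ^ 2)) (D.A (‖x‖ ^ 2)) (D.al (‖x‖ ^ 2)) (ka D (‖x‖ ^ 2)) := by
  rw [L2_gg]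
  have hq := q1_rel D (sq_nonneg ‖x‖)
  have h4 : ‖x‖ ^ 4 = (‖x‖ ^ 2) ^ 2 := by ring
  unfold nq
  simp only [ga, gb, gc, cc, ef, Matrix.cons_val_zero, Matrix.cons_val_one, Matrix.cons_val, h4]
  unfold k1 k2 k3 lh kh ka
  generalize pP E (‖x‖ ^ 2) = P at *
  generalize pP1 E (‖x‖ ^ 2) = P1 at *
  generalize D.al (‖x‖ ^ 2) = al at *
  generalize D.A (‖x‖ ^ 2) = A at *
  generalize D.q1 (‖x‖ ^ 2) = q1 at *
  generalize D.q (‖x‖ ^ 2) = q at *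
  generalize ‖x‖ ^ 2 = t at *
  rw [hq]
  ring

end Pool.Agent.H21.GBC
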