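import Pool.Agent.H21.GBC.Profile

/-!
# Smoothness, integrability, asymptotic flatness, mass and completeness
-/

open scoped BigOperators ContDiff
open Filter Topology MeasureTheory

namespace Pool.Agent.H21.GBC
open Pool.Agent.H91.GBC

lemma gR_apply (x : Eu 6) (i j : Fin 6) :
    gR x i j = gC x i j + (sf (‖x‖ ^ 2) ^ 3 + 2 * sf (‖x‖ ^ 2) ^ 4) * x i * x j := rfl

lemma gR_smooth (i j : Fin 6) : ContDiff ℝ ∞ (fun x => gR x i j) := by
  simp only [gR_apply]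
  have hx : ∀ i : Fin 6, ContDiff ℝ ∞ (fun x : Eu 6 => x i) := fun i => by fun_prop
  exact (gC_smooth i j).add ((((contDiff_sf.pow 3).add (contDiff_const.mul
    (contDiff_sf.pow 4))).mul (hx i)).mul (hx j))

lemma gR_quad (x : Eu 6) (v : Fin 6 → ℝ) :
    ∑ i, ∑ j, gR x i j * v i * v j
      = (∑ i, v i * v i) + 4 * sf (‖x‖ ^ 2) ^ 3 * (∑ i, Yv x i * v i) ^ 2
        + (sf (‖x‖ ^ 2) ^ 3 + 2 * sf (‖x‖ ^ 2) ^ 4) * (∑ i, x i * v i) ^ 2 := by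
  rw [← gC_quad]
  have h : ∀ i, ∑ j, gR x i j * v i * v j
      = ∑ j, gC x i j * v i * v j
        + ((sf (‖x‖ ^ 2) ^ 3 + 2 * sf (‖x‖ ^ 2) ^ 4) * (∑ j, x j * v j)) * (x i * v i) := by
    intro i
    have h2 : ∀ j, gR x i j * v i * v j = gC x i j * v i * v j
        + ((sf (‖x‖ ^ 2) ^ 3 + 2 * sf (‖x‖ ^ 2) ^ 4) * x i * v i) * (x j * v j) := by
      intro j; rw [gR_apply]; ring
    simp only [h2, Finset.sum_add_distrib, ← Finset.mul_sum]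
    ring
  simp only [h, Finset.sum_add_distrib, ← Finset.mul_sum]
  ring

lemma gR_posDef (x : Eu 6) : (gR x).PosDef := by
  refine Matrix.PosDef.of_dotProduct_mulVec_pos ?_ ?_
  · ext i j
    simp only [Matrix.conjTranspose_apply, star_trivial]
    rw [gR_apply, gR_apply, gC_apply, gC_apply, dl_comm]; ring
  · intro v hv
    have h1 : star v ⬝ᵥ (gR x).mulVec v = ∑ i, ∑ j, gR x i j * v i * v j := by
      simp only [dotProduct, Matrix.mulVec, Pi.star_apply, star_trivial, Finset.mul_sum]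
      exact Finset.sum_congr rfl fun i _ => Finset.sum_congr rfl fun j _ => by ring
    rw [h1, gR_quad]
    have hs := sf_pos (sq_nonneg ‖x‖)
    have h2 : 0 < ∑ i, v i * v i := by
      obtain ⟨i, hi⟩ := Function.ne_iff.mp hv
      refine Finset.sum_pos' (fun j _ => mul_self_nonneg _) ⟨i, Finset.mem_univ _, ?_⟩
      exact mul_self_pos.mpr hi
    positivity

theorem gR_metric : IsRiemannianMetric gR := ⟨gR_smooth, gR_posDef⟩

lemma det_gR (x : Eu 6) : (gR x).det = prof.X (‖x‖ ^ 2) * profE.X (‖x‖ ^ 2) := by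
  set U : Matrix (Fin 6) (Fin 2) ℝ := Matrix.of fun i k =>
    ![4 * sf (‖x‖ ^ 2) ^ 3 * Yv x i, (sf (‖x‖ ^ 2) ^ 3 + 2 * sf (‖x‖ ^ 2) ^ 4) * x i] k with hU
  set V : Matrix (Fin 2) (Fin 6) ℝ := Matrix.of fun k i => ![Yv x i, x i] k with hV
  have h : gR x = 1 + U * V := by
    ext i j
    rw [gR_apply, gC_apply, Matrix.add_apply, Matrix.mul_apply, Fin.sum_univ_two, hU, hV]
    simp only [Matrix.of_apply, Matrix.cons_val_zero, Matrix.cons_val_one]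
    rw [one_eq_dl]
    ring
  rw [h, Matrix.det_one_add_mul_comm, Matrix.det_fin_two]
  have e : ∀ k l : Fin 2, (V * U) k l = ∑ i, V k i * U i l := fun k l => Matrix.mul_apply
  simp only [Matrix.add_apply, e]
  have e00 : ∑ i, V 0 i * U i 0 = 4 * sf (‖x‖ ^ 2) ^ 3 * ‖x‖ ^ 2 := by
    have : ∀ i, V 0 i * U i 0 = (4 * sf (‖x‖ ^ 2) ^ 3) * (Yv x i * Yv x i) := by
      intro i
      rw [hU, hV]
      simp only [Matrix.of_apply, Matrix.cons_val_zero]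
      ring
    simp only [this, ← Finset.mul_sum, sum_YY]
  have e01 : ∑ i, V 0 i * U i 1 = 0 := by
    have : ∀ i, V 0 i * U i 1 = (sf (‖x‖ ^ 2) ^ 3 + 2 * sf (‖x‖ ^ 2) ^ 4) * (Yv x i * x i) := by
      intro i
      rw [hU, hV]
      simp only [Matrix.of_apply, Matrix.cons_val_zero, Matrix.cons_val_one]
      ring
    simp only [this, ← Finset.mul_sum, sum_Yx, mul_zero]
  have e11 : ∑ i, V 1 i * U i 1 = (sf (‖x‖ ^ 2) ^ 3 + 2 * sf (‖x‖ ^ 2) ^ 4) * ‖x‖ ^ 2 := by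
    have : ∀ i, V 1 i * U i 1 = (sf (‖x‖ ^ 2) ^ 3 + 2 * sf (‖x‖ ^ 2) ^ 4) * (x i * x i) := by
      intro i
      rw [hU, hV]
      simp only [Matrix.of_apply, Matrix.cons_val_one, Matrix.cons_val_fin_one]
      ring
    simp only [this, ← Finset.mul_sum, sum_xx]
  rw [e00, e01, e11]
  simp only [Matrix.one_apply_eq]
  have hX : prof.X (‖x‖ ^ 2) = 1 + ‖x‖ ^ 2 * (4 * sf (‖x‖ ^ 2) ^ 3) := rfl
  have hW : profE.X (‖x‖ ^ 2) = 1 + ‖x‖ ^ 2 * (sf (‖x‖ ^ 2) ^ 3 + 2 * sf (‖x‖ ^ 2) ^ 4) := rfl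
  rw [hX, hW]
  simp
  ring

theorem gR_L2Integrable : L2Integrable gR := by
  unfold L2Integrable
  have h1 : (fun x : Eu 6 => L2 gR x * √(gR x).det)
      = fun x => sf (‖x‖ ^ 2) ^ 7 * lp (sf (‖x‖ ^ 2))
          / (profE.X (‖x‖ ^ 2) ^ 3 * prof.X (‖x‖ ^ 2) ^ 2)
          * √(prof.X (‖x‖ ^ 2) * profE.X (‖x‖ ^ 2)) := by
    funext x; rw [L2_closed2, det_gR]
  rw [h1]
  have hr : (Module.finrank ℝ (Eu 6) : ℝ) < 7 := by
    rw [finrank_euclideanSpace_fin]; norm_num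
  have hint := (integrable_rpow_neg_one_add_norm_sq (μ := (volume : Measure (Eu 6))) hr).const_mul
    1104120
  have hcs : Continuous (fun x : Eu 6 => sf (‖x‖ ^ 2)) := contDiff_sf.continuous
  have hcX : Continuous (fun x : Eu 6 => prof.X (‖x‖ ^ 2)) := by
    have : (fun x : Eu 6 => prof.X (‖x‖ ^ 2)) = fun x => 1 + ‖x‖ ^ 2 * (4 * sf (‖x‖ ^ 2) ^ 3) :=
      rfl
    rw [this]
    fun_prop
  have hcW : Continuous (fun x : Eu 6 => profE.X (‖x‖ ^ 2)) := by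
    have : (fun x : Eu 6 => profE.X (‖x‖ ^ 2))
        = fun x => 1 + ‖x‖ ^ 2 * (sf (‖x‖ ^ 2) ^ 3 + 2 * sf (‖x‖ ^ 2) ^ 4) := rfl
    rw [this]
    fun_prop
  have hcp : Continuous (fun x : Eu 6 => lp (sf (‖x‖ ^ 2))) := by
    unfold lp
    fun_prop
  refine hint.mono' ?_ (Eventually.of_forall fun x => ?_)
  · apply Continuous.aestronglyMeasurable
    refine Continuous.mul (Continuous.div ?_ ?_ ?_) (hcX.mul hcW).sqrt
    · exact (hcs.pow 7).mul hcp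
    · exact (hcW.pow 3).mul (hcX.pow 2)
    · intro x
      have := prof.X_pos (sq_nonneg ‖x‖)
      have := profE.X_pos (sq_nonneg ‖x‖)
      positivity
  · have ht := sq_nonneg ‖x‖
    have hs := sf_pos ht
    have hs1 := sf_le_one ht
    have hp := lp_pos hs.le hs1
    have hp2 := lp_le hs.le hs1
    have hX := prof_X_ge ht
    have hX0 := prof.X_pos ht
    have hW := profE_X_ge ht
    have hW0 := profE.X_pos ht
    have e1 : ((1 : ℝ) + ‖x‖ ^ 2) ^ (-(7 : ℝ) / 2) = sf (‖x‖ ^ 2) ^ 7 := by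
      unfold sf
      have hb : (0 : ℝ) ≤ 1 + ‖x‖ ^ 2 := by positivity
      generalize 1 + ‖x‖ ^ 2 = b at *
      rw [Real.sqrt_eq_rpow, ← Real.rpow_neg hb, ← Real.rpow_natCast, ← Real.rpow_mul hb]
      norm_num
    rw [Real.norm_of_nonneg (by positivity), e1]
    generalize prof.X (‖x‖ ^ 2) = X at *
    generalize profE.X (‖x‖ ^ 2) = W at *
    have hXW : 1 ≤ X * W := one_le_mul_of_one_le_of_one_le hX hW
    have e2 : √(X * W) ≤ W ^ 3 * X ^ 2 := by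
      rw [Real.sqrt_le_left (by positivity)]
      have a1 : X * W ≤ (X * W) ^ 4 := le_self_pow₀ hXW (by norm_num)
      have a2 : 1 ≤ W ^ 2 := one_le_pow₀ hW
      have a3 : 0 ≤ (X * W) ^ 4 := by positivity
      calc X * W ≤ (X * W) ^ 4 * 1 := by linarith
        _ ≤ (X * W) ^ 4 * W ^ 2 := by gcongr
        _ = (W ^ 3 * X ^ 2) ^ 2 := by ring
    rw [div_mul_eq_mul_div, div_le_iff₀ (by positivity)]
    have hs7 : 0 ≤ sf (‖x‖ ^ 2) ^ 7 := by positivity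
    calc sf (‖x‖ ^ 2) ^ 7 * lp (sf (‖x‖ ^ 2)) * √(X * W)
        ≤ sf (‖x‖ ^ 2) ^ 7 * 1104120 * (W ^ 3 * X ^ 2) := by
          gcongr
      _ = 1104120 * sf (‖x‖ ^ 2) ^ 7 * (W ^ 3 * X ^ 2) := by ring

/-! ### asymptotic flatness -/

lemma hpd_dg (D : QD) (x : Eu 6) (l k i j : Fin 6) :
    HPD l (fun z => D.dg z k i j) x (D.ddg x l k i j) := by
  have hx : ∀ i : Fin 6, HPD l (fun z : Eu 6 => z i) x (dl i l) := fun i => HPD.coord i
  have hY : ∀ i : Fin 6, HPD l (fun z : Eu 6 => Yv z i) x (Jr i l) := fun i => HPD.Yv i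
  have h1 := ((((HPD.const (k := l) (x := x) 2).mul (D.hpd_q1 x l)).mul (hx k)).mul (hY i)).mul
    (hY j)
  have h3 := (D.hpd_q x l).mul
    (((HPD.const (k := l) (x := x) (Jr i k)).mul (hY j)).add
      ((hY i).mul (HPD.const (k := l) (x := x) (Jr j k))))
  have h4 := h1.add h3
  have h5 : (fun z => D.dg z k i j) = fun z => 2 * D.q1 (‖z‖ ^ 2) * z k * Yv z i * Yv z j
    + D.q (‖z‖ ^ 2) * (Jr i k * Yv z j + Yv z i * Jr j k) := rfl
  rw [h5]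
  refine HPD.congr_val h4 ?_
  unfold QD.ddg
  ring

/-- second derivative of the part `p x ⊗ x` -/
noncomputable def ddp (E : QD) (x : Eu 6) (l k i j : Fin 6) : ℝ :=
  4 * E.q2 (‖x‖ ^ 2) * x l * x k * x i * x j
    + 2 * E.q1 (‖x‖ ^ 2) * (dl k l * x i * x j + x k * dl i l * x j + x k * x i * dl j l)
    + 2 * E.q1 (‖x‖ ^ 2) * x l * (dl i k * x j + x i * dl j k)
    + E.q (‖x‖ ^ 2) * (dl i k * dl j l + dl i l * dl j k)

lemma hpd_dp (E : QD) (x : Eu 6) (l k i j : Fin 6) :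
    HPD l (fun z => dp E z k i j) x (ddp E x l k i j) := by
  have hx : ∀ i : Fin 6, HPD l (fun z : Eu 6 => z i) x (dl i l) := fun i => HPD.coord i
  have h1 := ((((HPD.const (k := l) (x := x) 2).mul (E.hpd_q1 x l)).mul (hx k)).mul (hx i)).mul
    (hx j)
  have h3 := (E.hpd_q x l).mul
    (((HPD.const (k := l) (x := x) (dl i k)).mul (hx j)).add
      ((hx i).mul (HPD.const (k := l) (x := x) (dl j k))))
  have h4 := h1.add h3
  have h5 : (fun z => dp E z k i j) = fun z => 2 * E.q1 (‖z‖ ^ 2) * z k * z i * z j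
    + E.q (‖z‖ ^ 2) * (dl i k * z j + z i * dl j k) := rfl
  rw [h5]
  refine HPD.congr_val h4 ?_
  unfold ddp
  ring

lemma pd_sigma2 (k i j : Fin 6) :
    pd k (fun z => gR z i j - (1 : Matrix (Fin 6) (Fin 6) ℝ) i j)
      = fun x => prof.dg x k i j + dp profE x k i j := by
  funext x
  have h := (hpd_gg prof profE x k i j).sub
    (HPD.const (k := k) (x := x) ((1 : Matrix (Fin 6) (Fin 6) ℝ) i j))
  rw [sub_zero] at h
  exact h.pd_eq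

theorem gR_flat : IsAsymptoticallyFlat gR 1 := by
  obtain ⟨C, R₀, hR₀, hC⟩ := gC_flat
  refine ⟨C + 200, max R₀ 1, lt_max_of_lt_left hR₀, fun x hx i j k l => ?_⟩
  have hx1 : 1 ≤ ‖x‖ := le_trans (le_max_right _ _) hx
  have hx2 : R₀ ≤ ‖x‖ := le_trans (le_max_left _ _) hx
  have h0 := hC x hx2 i j k l
  rw [pd_sigma, QD.pd_dg, Real.rpow_neg_one] at h0
  have e2 : pd l (fun x => prof.dg x k i j + dp profE x k i j) x
      = prof.ddg x l k i j + ddp profE x l k i j :=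
    ((hpd_dg prof x l k i j).add (hpd_dp profE x l k i j)).pd_eq
  rw [pd_sigma2, e2, gR_apply, Real.rpow_neg_one]
  have hr0 : 0 < ‖x‖ := by linarith
  have ht := sq_nonneg ‖x‖
  have hs := sf_pos ht
  have hs1 := sf_le_one ht
  have hsq := sf_sq ht
  have hw : sf (‖x‖ ^ 2) * ‖x‖ ≤ 1 := by
    have h2 : (sf (‖x‖ ^ 2) * ‖x‖) ^ 2 ≤ 1 := by nlinarith [sq_nonneg (sf (‖x‖ ^ 2))]
    have h3 : 0 ≤ sf (‖x‖ ^ 2) * ‖x‖ := by positivity
    exact (sq_le_one_iff₀ h3).mp h2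
  have hxb := abs_coord_le x
  have e1 : |sf (‖x‖ ^ 2) ^ 3 + 2 * sf (‖x‖ ^ 2) ^ 4| ≤ 3 * sf (‖x‖ ^ 2) ^ 3 := by
    rw [abs_of_nonneg (by positivity)]
    have : sf (‖x‖ ^ 2) ^ 4 ≤ sf (‖x‖ ^ 2) ^ 3 := pow_le_pow_of_le_one hs.le hs1 (by norm_num)
    linarith
  have e3 : |2 * (-(3 / 2) * sf (‖x‖ ^ 2) ^ 5 - 4 * sf (‖x‖ ^ 2) ^ 6)|
      ≤ 11 * sf (‖x‖ ^ 2) ^ 5 := by
    rw [show 2 * (-(3 / 2) * sf (‖x‖ ^ 2) ^ 5 - 4 * sf (‖x‖ ^ 2) ^ 6)
      = -(3 * sf (‖x‖ ^ 2) ^ 5 + 8 * sf (‖x‖ ^ 2) ^ 6) by ring, abs_neg,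
      abs_of_nonneg (by positivity)]
    have : sf (‖x‖ ^ 2) ^ 6 ≤ sf (‖x‖ ^ 2) ^ 5 := pow_le_pow_of_le_one hs.le hs1 (by norm_num)
    linarith
  have e4 : |4 * ((15 / 4) * sf (‖x‖ ^ 2) ^ 7 + 12 * sf (‖x‖ ^ 2) ^ 8)|
      ≤ 63 * sf (‖x‖ ^ 2) ^ 7 := by
    rw [abs_of_nonneg (by positivity)]
    have : sf (‖x‖ ^ 2) ^ 8 ≤ sf (‖x‖ ^ 2) ^ 7 := pow_le_pow_of_le_one hs.le hs1 (by norm_num)
    linarith
  have b1 : |(sf (‖x‖ ^ 2) ^ 3 + 2 * sf (‖x‖ ^ 2) ^ 4) * x i * x j|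
      ≤ 3 * sf (‖x‖ ^ 2) ^ 3 * ‖x‖ * ‖x‖ :=
    bnd_mul (bnd_mul e1 (hxb i)) (hxb j)
  have b2 : |dp profE x k i j| ≤ 11 * sf (‖x‖ ^ 2) ^ 5 * ‖x‖ * ‖x‖ * ‖x‖
      + 3 * sf (‖x‖ ^ 2) ^ 3 * (1 * ‖x‖ + ‖x‖ * 1) := by
    unfold dp
    rw [profE_q, profE_q1]
    exact bnd_add (bnd_mul (bnd_mul (bnd_mul e3 (hxb k)) (hxb i)) (hxb j))
      (bnd_mul e1 (bnd_add (bnd_mul (abs_dl_le i k) (hxb j)) (bnd_mul (hxb i) (abs_dl_le j k))))
  have b3 : |ddp profE x l k i j| ≤ 63 * sf (‖x‖ ^ 2) ^ 7 * ‖x‖ * ‖x‖ * ‖x‖ * ‖x‖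
      + 11 * sf (‖x‖ ^ 2) ^ 5 * (1 * ‖x‖ * ‖x‖ + ‖x‖ * 1 * ‖x‖ + ‖x‖ * ‖x‖ * 1)
      + 11 * sf (‖x‖ ^ 2) ^ 5 * ‖x‖ * (1 * ‖x‖ + ‖x‖ * 1)
      + 3 * sf (‖x‖ ^ 2) ^ 3 * (1 * 1 + 1 * 1) := by
    unfold ddp
    rw [profE_q, profE_q1, profE_q2]
    refine bnd_add (bnd_add (bnd_add ?_ ?_) ?_) ?_
    · exact bnd_mul (bnd_mul (bnd_mul (bnd_mul e4 (hxb l)) (hxb k)) (hxb i)) (hxb j)
    · exact bnd_mul e3 (bnd_add (bnd_add (bnd_mul (bnd_mul (abs_dl_le k l) (hxb i)) (hxb j))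
        (bnd_mul (bnd_mul (hxb k) (abs_dl_le i l)) (hxb j)))
        (bnd_mul (bnd_mul (hxb k) (hxb i)) (abs_dl_le j l)))
    · exact bnd_mul (bnd_mul e3 (hxb l)) (bnd_add (bnd_mul (abs_dl_le i k) (hxb j))
        (bnd_mul (hxb i) (abs_dl_le j k)))
    · exact bnd_mul e1 (bnd_add (bnd_mul (abs_dl_le i k) (abs_dl_le j l))
        (bnd_mul (abs_dl_le i l) (abs_dl_le j k)))
  have t1 : |gC x i j + (sf (‖x‖ ^ 2) ^ 3 + 2 * sf (‖x‖ ^ 2) ^ 4) * x i * x j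
      - (1 : Matrix (Fin 6) (Fin 6) ℝ) i j|
      ≤ |gC x i j - (1 : Matrix (Fin 6) (Fin 6) ℝ) i j| + 3 * sf (‖x‖ ^ 2) ^ 3 * ‖x‖ * ‖x‖ := by
    have : gC x i j + (sf (‖x‖ ^ 2) ^ 3 + 2 * sf (‖x‖ ^ 2) ^ 4) * x i * x j
        - (1 : Matrix (Fin 6) (Fin 6) ℝ) i j
        = (gC x i j - (1 : Matrix (Fin 6) (Fin 6) ℝ) i j)
          + (sf (‖x‖ ^ 2) ^ 3 + 2 * sf (‖x‖ ^ 2) ^ 4) * x i * x j := by ring
    rw [this]
    exact (abs_add_le _ _).trans (by linarith)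
  have t2 : |prof.dg x k i j + dp profE x k i j| ≤ |prof.dg x k i j|
      + (11 * sf (‖x‖ ^ 2) ^ 5 * ‖x‖ * ‖x‖ * ‖x‖
      + 3 * sf (‖x‖ ^ 2) ^ 3 * (1 * ‖x‖ + ‖x‖ * 1)) :=
    (abs_add_le _ _).trans (by linarith)
  have t3 : |prof.ddg x l k i j + ddp profE x l k i j| ≤ |prof.ddg x l k i j|
      + (63 * sf (‖x‖ ^ 2) ^ 7 * ‖x‖ * ‖x‖ * ‖x‖ * ‖x‖
      + 11 * sf (‖x‖ ^ 2) ^ 5 * (1 * ‖x‖ * ‖x‖ + ‖x‖ * 1 * ‖x‖ + ‖x‖ * ‖x‖ * 1)
      + 11 * sf (‖x‖ ^ 2) ^ 5 * ‖x‖ * (1 * ‖x‖ + ‖x‖ * 1)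
      + 3 * sf (‖x‖ ^ 2) ^ 3 * (1 * 1 + 1 * 1)) :=
    (abs_add_le _ _).trans (by linarith)
  generalize sf (‖x‖ ^ 2) = s at *
  generalize ‖x‖ = r at *
  generalize |gC x i j - (1 : Matrix (Fin 6) (Fin 6) ℝ) i j| = g0 at *
  generalize |prof.dg x k i j| = g1 at *
  generalize |prof.ddg x l k i j| = g2 at *
  have hw0 : 0 ≤ s * r := by positivity
  have p3 : (s * r) ^ 3 ≤ 1 := pow_le_one₀ hw0 hw
  have p5 : (s * r) ^ 5 ≤ 1 := pow_le_one₀ hw0 hw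
  have p7 : (s * r) ^ 7 ≤ 1 := pow_le_one₀ hw0 hw
  have hri : 0 ≤ r⁻¹ := by positivity
  have key : 3 * s ^ 3 * r * r + r * (11 * s ^ 5 * r * r * r + 3 * s ^ 3 * (1 * r + r * 1))
        + r ^ 2 * (63 * s ^ 7 * r * r * r * r + 11 * s ^ 5 * (1 * r * r + r * 1 * r + r * r * 1)
          + 11 * s ^ 5 * r * (1 * r + r * 1) + 3 * s ^ 3 * (1 * 1 + 1 * 1)) ≤ 200 * r⁻¹ := by
    calc _ = (15 * (s * r) ^ 3 + 66 * (s * r) ^ 5 + 63 * (s * r) ^ 7) * r⁻¹ := by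
          field_simp; ring
      _ ≤ (15 * 1 + 66 * 1 + 63 * 1) * r⁻¹ := by gcongr
      _ ≤ 200 * r⁻¹ := by gcongr; norm_num
  calc _ ≤ (g0 + 3 * s ^ 3 * r * r) + r * (g1 + (11 * s ^ 5 * r * r * r
            + 3 * s ^ 3 * (1 * r + r * 1)))
        + r ^ 2 * (g2 + (63 * s ^ 7 * r * r * r * r
          + 11 * s ^ 5 * (1 * r * r + r * 1 * r + r * r * 1)
          + 11 * s ^ 5 * r * (1 * r + r * 1) + 3 * s ^ 3 * (1 * 1 + 1 * 1))) := by
        gcongr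
    _ = (g0 + r * g1 + r ^ 2 * g2) + (3 * s ^ 3 * r * r + r * (11 * s ^ 5 * r * r * r
            + 3 * s ^ 3 * (1 * r + r * 1))
        + r ^ 2 * (63 * s ^ 7 * r * r * r * r + 11 * s ^ 5 * (1 * r * r + r * 1 * r + r * r * 1)
          + 11 * s ^ 5 * r * (1 * r + r * 1) + 3 * s ^ 3 * (1 * 1 + 1 * 1))) := by ring
    _ ≤ C * r⁻¹ + 200 * r⁻¹ := add_le_add h0 key
    _ = (C + 200) * r⁻¹ := by ring

/-! ### the mass -/

/-- the flux as a function of `s = (1 + r²)^(-1/2)` -/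
noncomputable def fs (s : ℝ) : ℝ :=
  (1 / 20) * (1 - s ^ 2) ^ 3 * (5 * (1 + 2 * s) ^ 2 / (1 + (s + 2 * s ^ 2) * (1 - s ^ 2)) ^ 2
    - (1 + 2 * s) / (1 + (s + 2 * s ^ 2) * (1 - s ^ 2)) * (4 + 4 / (1 + 4 * s * (1 - s ^ 2)))
    + 4 * (1 / (1 + (s + 2 * s ^ 2) * (1 - s ^ 2)))
      * ((6 * s ^ 2 - 2) / (1 + 4 * s * (1 - s ^ 2)))
      * (4 - (1 + 2 * s) / (1 + (s + 2 * s ^ 2) * (1 - s ^ 2)))
    + 16 / (1 + 4 * s * (1 - s ^ 2)))

lemma flux_eq2 {r : ℝ} (hr : 0 < r) : massConst 6 * flux gR r = fs (sf (r ^ 2)) := by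
  have hOm := omega_pos
  unfold flux sphereIntegral
  have h1 : ∀ θ : Metric.sphere (0 : Eu 6) 1,
      (∑ i, ∑ j, ∑ m, ∑ l, P gR i j m l (r • (θ : Eu 6))
        * pd l (fun z => gR z j m) (r • (θ : Eu 6))
        * ((r • (θ : Eu 6)) i / ‖r • (θ : Eu 6)‖))
      = fl (r ^ 2) (pP profE (r ^ 2)) (prof.q (r ^ 2)) (ka prof (r ^ 2)) (prof.X (r ^ 2)) / r := by
    intro θ
    have hn : ‖r • (θ : Eu 6)‖ = r := by
      rw [norm_smul, Real.norm_of_nonneg hr.le]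
      have : ‖(θ : Eu 6)‖ = 1 := by simp
      rw [this, mul_one]
    have := flux_density2 prof profE (r • (θ : Eu 6))
    rw [hn] at this
    unfold gR
    rw [hn, this]
  simp only [h1]
  rw [integral_const]
  have h2 : (Measure.toSphere (volume : Measure (Eu 6))).real Set.univ = omega 6 := rfl
  rw [h2, smul_eq_mul]
  unfold massConst
  have ht := sq_nonneg r
  have hs := sf_pos ht
  have hsm := sf_sq_mul ht
  have hX := (prof.X_pos ht).ne'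
  have hW := (profE.X_pos ht).ne'
  have hf1 : ((6 - 4).factorial : ℝ) = 2 := by norm_num [Nat.factorial]
  have hf2 : ((6 - 1).factorial : ℝ) = 120 := by norm_num [Nat.factorial]
  rw [hf1, hf2, ka_prof ht]
  unfold fl pP fs
  rw [prof_q, profE_q, ← prof_X ht, ← profE_X ht]
  have hu : 1 - r ^ 2 * ((sf (r ^ 2) ^ 3 + 2 * sf (r ^ 2) ^ 4) / profE.X (r ^ 2))
      = 1 / profE.X (r ^ 2) := by
    have h4 : profE.X (r ^ 2) = 1 + r ^ 2 * (sf (r ^ 2) ^ 3 + 2 * sf (r ^ 2) ^ 4) := rfl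
    field_simp
    rw [h4]
    ring
  rw [hu]
  have e : (1 - sf (r ^ 2) ^ 2) = sf (r ^ 2) ^ 2 * r ^ 2 := hsm.symm
  rw [e]
  generalize prof.X (r ^ 2) = X at *
  generalize profE.X (r ^ 2) = W at *
  generalize sf (r ^ 2) = s at *
  generalize omega 6 = Om at *
  have hr' := hr.ne'
  have hOm' := hOm.ne'
  field_simp
  ring

theorem gR_mass : HasGBCMass gR (-11 / 20) := by
  unfold HasGBCMass
  have h1 : Tendsto (fun r : ℝ => fs (sf (r ^ 2))) atTop (𝓝 (fs 0)) := by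
    have hs := tendsto_sf
    have hc : ContinuousAt fs 0 := by
      unfold fs
      have c1 : ContinuousAt (fun s : ℝ => 1 + (s + 2 * s ^ 2) * (1 - s ^ 2)) 0 := by fun_prop
      have c2 : ContinuousAt (fun s : ℝ => 1 + 4 * s * (1 - s ^ 2)) 0 := by fun_prop
      have n1 : (1 : ℝ) + (0 + 2 * 0 ^ 2) * (1 - 0 ^ 2) ≠ 0 := by norm_num
      have n2 : (1 : ℝ) + 4 * 0 * (1 - 0 ^ 2) ≠ 0 := by norm_num
      refine ContinuousAt.mul (by fun_prop) ?_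
      refine ((ContinuousAt.sub ?_ ?_).add ?_).add ?_
      · exact ContinuousAt.div (by fun_prop) (c1.pow 2) (by norm_num)
      · exact (ContinuousAt.div (by fun_prop) c1 n1).mul
          (continuousAt_const.add (ContinuousAt.div continuousAt_const c2 n2))
      · refine ((continuousAt_const.mul (ContinuousAt.div continuousAt_const c1 n1)).mul
          (ContinuousAt.div (by fun_prop) c2 n2)).mul ?_
        exact continuousAt_const.sub (ContinuousAt.div (by fun_prop) c1 n1)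
      · exact ContinuousAt.div continuousAt_const c2 n2
    exact hc.tendsto.comp hs
  have h3 : fs 0 = -11 / 20 := by unfold fs; norm_num
  rw [h3] at h1
  refine h1.congr' ?_
  filter_upwards [eventually_gt_atTop 0] with r hr
  rw [flux_eq2 hr]

/-! ### completeness -/

lemma gR_lower (x : Eu 6) (v : Eu 6) : ‖v‖ ^ 2 ≤ ∑ i, ∑ j, gR x i j * v i * v j := by
  rw [gR_quad x (fun i => v i), sum_xx]
  have hs := sf_pos (sq_nonneg ‖x‖)
  have : 0 ≤ 4 * sf (‖x‖ ^ 2) ^ 3 * (∑ i, Yv x i * v i) ^ 2 := by positivity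
  have : 0 ≤ (sf (‖x‖ ^ 2) ^ 3 + 2 * sf (‖x‖ ^ 2) ^ 4) * (∑ i, x i * v i) ^ 2 := by positivity
  linarith

lemma gR_upper (x : Eu 6) (v : Eu 6) : ∑ i, ∑ j, gR x i j * v i * v j ≤ 8 * ‖v‖ ^ 2 := by
  rw [gR_quad x (fun i => v i), sum_xx]
  have ht := sq_nonneg ‖x‖
  have hs := sf_pos ht
  have e2 : ∑ i, v i ^ 2 = ‖v‖ ^ 2 := by
    rw [← sum_xx]; exact Finset.sum_congr rfl fun i _ => by ring
  have h1 : (∑ i, Yv x i * v i) ^ 2 ≤ ‖x‖ ^ 2 * ‖v‖ ^ 2 := by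
    have := Finset.sum_mul_sq_le_sq_mul_sq Finset.univ (fun i => Yv x i) (fun i => v i)
    have e1 : ∑ i, Yv x i ^ 2 = ‖x‖ ^ 2 := by
      rw [← sum_YY]; exact Finset.sum_congr rfl fun i _ => by ring
    rw [e1, e2] at this
    exact this
  have h1' : (∑ i, x i * v i) ^ 2 ≤ ‖x‖ ^ 2 * ‖v‖ ^ 2 := by
    have := Finset.sum_mul_sq_le_sq_mul_sq Finset.univ (fun i => x i) (fun i => v i)
    have e1 : ∑ i, x i ^ 2 = ‖x‖ ^ 2 := by
      rw [← sum_xx]; exact Finset.sum_congr rfl fun i _ => by ring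
    rw [e1, e2] at this
    exact this
  have h2 : prof.X (‖x‖ ^ 2) ≤ 5 := prof_X_le ht
  have h3 : prof.X (‖x‖ ^ 2) = 1 + ‖x‖ ^ 2 * (4 * sf (‖x‖ ^ 2) ^ 3) := rfl
  have h2' : profE.X (‖x‖ ^ 2) ≤ 4 := profE_X_le ht
  have h3' : profE.X (‖x‖ ^ 2) = 1 + ‖x‖ ^ 2 * (sf (‖x‖ ^ 2) ^ 3 + 2 * sf (‖x‖ ^ 2) ^ 4) := rfl
  have h4 : 0 ≤ 4 * sf (‖x‖ ^ 2) ^ 3 := by positivity
  have h5 : 0 ≤ sf (‖x‖ ^ 2) ^ 3 + 2 * sf (‖x‖ ^ 2) ^ 4 := by positivity
  have h6 : prof.X (‖x‖ ^ 2) + profE.X (‖x‖ ^ 2) - 1 ≤ 8 := by linarith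
  calc ‖v‖ ^ 2 + 4 * sf (‖x‖ ^ 2) ^ 3 * (∑ i, Yv x i * v i) ^ 2
        + (sf (‖x‖ ^ 2) ^ 3 + 2 * sf (‖x‖ ^ 2) ^ 4) * (∑ i, x i * v i) ^ 2
      ≤ ‖v‖ ^ 2 + 4 * sf (‖x‖ ^ 2) ^ 3 * (‖x‖ ^ 2 * ‖v‖ ^ 2)
        + (sf (‖x‖ ^ 2) ^ 3 + 2 * sf (‖x‖ ^ 2) ^ 4) * (‖x‖ ^ 2 * ‖v‖ ^ 2) := by gcongr
    _ = (prof.X (‖x‖ ^ 2) + profE.X (‖x‖ ^ 2) - 1) * ‖v‖ ^ 2 := by rw [h3, h3']; ring
    _ ≤ 8 * ‖v‖ ^ 2 := by gcongr

lemma gR_cont (i j : Fin 6) : Continuous (fun x => gR x i j) := (gR_smooth i j).continuous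

lemma length_ge2 {γ : ℝ → Eu 6} (hγ : ContDiff ℝ 1 γ) : ‖γ 1 - γ 0‖ ≤ curveLength gR γ := by
  have hd : Continuous (deriv γ) := hγ.continuous_deriv le_rfl
  have hc : Continuous γ := hγ.continuous
  have hint : ∫ t in (0 : ℝ)..1, deriv γ t = γ 1 - γ 0 := by
    refine intervalIntegral.integral_deriv_eq_sub (fun t _ => ?_) (hd.intervalIntegrable _ _)
    exact (hγ.differentiable (by norm_num)).differentiableAt
  rw [← hint]
  refine (intervalIntegral.norm_integral_le_integral_norm zero_le_one).trans ?_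
  unfold curveLength
  have hq : Continuous (fun t => √(∑ i, ∑ j, gR (γ t) i j * deriv γ t i * deriv γ t j)) := by
    refine Continuous.sqrt ?_
    refine continuous_finsetSum _ fun i _ => continuous_finsetSum _ fun j _ => ?_
    have h1 : Continuous (fun t => gR (γ t) i j) := (gR_cont i j).comp hc
    have h2 : ∀ i, Continuous (fun t => deriv γ t i) := fun i => by
      have : Continuous (fun x : Eu 6 => x i) := by fun_prop
      exact this.comp hd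
    exact (h1.mul (h2 i)).mul (h2 j)
  refine intervalIntegral.integral_mono_on zero_le_one (hd.norm.intervalIntegrable _ _)
    (hq.intervalIntegrable _ _) fun t _ => ?_
  exact Real.le_sqrt_of_sq_le (gR_lower _ _)

lemma length_line2 (x y : Eu 6) :
    curveLength gR (fun t : ℝ => x + t • (y - x)) ≤ √8 * ‖y - x‖ := by
  unfold curveLength
  have hd : ∀ t : ℝ, deriv (fun t : ℝ => x + t • (y - x)) t = y - x := by
    intro t
    have h : HasDerivAt (fun t : ℝ => x + t • (y - x)) ((1 : ℝ) • (y - x)) t :=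
      ((hasDerivAt_id' t).smul_const (y - x)).const_add x
    rw [h.deriv, one_smul]
  simp only [hd]
  have hq : Continuous (fun t : ℝ => √(∑ i, ∑ j, gR (x + t • (y - x)) i j * (y - x) i
      * (y - x) j)) := by
    refine Continuous.sqrt ?_
    refine continuous_finsetSum _ fun i _ => continuous_finsetSum _ fun j _ => ?_
    have h0 : Continuous (fun t : ℝ => x + t • (y - x)) := by fun_prop
    have h1 : Continuous (fun t : ℝ => gR (x + t • (y - x)) i j) := (gR_cont i j).comp h0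
    exact (h1.mul continuous_const).mul continuous_const
  have h1 : (∫ t in (0 : ℝ)..1, √(∑ i, ∑ j, gR (x + t • (y - x)) i j * (y - x) i * (y - x) j))
      ≤ ∫ _t in (0 : ℝ)..1, √8 * ‖y - x‖ := by
    refine intervalIntegral.integral_mono_on zero_le_one (hq.intervalIntegrable _ _)
      (continuous_const.intervalIntegrable _ _) fun t _ => ?_
    rw [Real.sqrt_le_left (by positivity)]
    rw [mul_pow, Real.sq_sqrt (by norm_num)]
    exact gR_upper _ _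
  refine h1.trans ?_
  simp

lemma line_mem2 (x y : Eu 6) : curveLength gR (fun t : ℝ => x + t • (y - x)) ∈
    {L | ∃ γ : ℝ → Eu 6, ContDiff ℝ 1 γ ∧ γ 0 = x ∧ γ 1 = y ∧ L = curveLength gR γ} := by
  refine ⟨fun t : ℝ => x + t • (y - x), ?_, ?_, ?_, rfl⟩
  · exact contDiff_const.add (contDiff_id.smul contDiff_const)
  · simp
  · simp

lemma riemDist_ge2 (x y : Eu 6) : ‖y - x‖ ≤ riemDist gR x y := by
  unfold riemDist
  refine le_csInf ⟨_, line_mem2 x y⟩ ?_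
  rintro L ⟨γ, hγ, h0, h1, rfl⟩
  have := length_ge2 hγ
  rwa [h0, h1] at this

lemma riemDist_le2 (x y : Eu 6) : riemDist gR x y ≤ √8 * ‖y - x‖ := by
  unfold riemDist
  refine (csInf_le ⟨0, ?_⟩ (line_mem2 x y)).trans (length_line2 x y)
  rintro L ⟨γ, hγ, h0, h1, rfl⟩
  exact (norm_nonneg _).trans (length_ge2 hγ)

theorem gR_complete : IsCompleteMetric gR := by
  intro u hu
  have hc : CauchySeq u := by
    rw [Metric.cauchySeq_iff]
    intro ε hε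
    obtain ⟨N, hN⟩ := hu ε hε
    refine ⟨N, fun p hp q hq => ?_⟩
    rw [dist_comm, dist_eq_norm]
    exact (riemDist_ge2 _ _).trans_lt (hN p hp q hq)
  obtain ⟨x, hx⟩ := cauchySeq_tendsto_of_complete hc
  refine ⟨x, ?_⟩
  have h1 : Tendsto (fun p => √8 * ‖x - u p‖) atTop (𝓝 0) := by
    have h2 : Tendsto (fun p => x - u p) atTop (𝓝 (x - x)) := tendsto_const_nhds.sub hx
    rw [sub_self] at h2
    have h3 := h2.norm.const_mul (√8)
    simpa using h3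
  refine squeeze_zero (fun p => ?_) (fun p => riemDist_le2 _ _) h1
  exact (norm_nonneg _).trans (riemDist_ge2 _ _)

end Pool.Agent.H21.GBC
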