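import Pool.Agent.H21.GBC.Closed

/-!
# The flux density of the Gauss-Bonnet-Chern mass for `δ + q Jx ⊗ Jx + p x ⊗ x`
-/

open scoped BigOperators

namespace Pool.Agent.H21.GBC
open Pool.Agent.H91.GBC

lemma sum_hinv_x (D E : QD) (x : Eu 6) (b : Fin 6) :
    ∑ l, hinv D E x b l * x l = x b / E.X (‖x‖ ^ 2) := by
  have h := sum_hinv D E x b 0 0 0 0 0 1
  simp only [zero_mul, add_zero, zero_add, one_mul, mul_zero, sub_zero] at h
  rw [h]
  ring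

lemma sum_hinv_Y (D E : QD) (x : Eu 6) (b : Fin 6) :
    ∑ l, hinv D E x b l * Yv x l = Yv x b / D.X (‖x‖ ^ 2) := by
  have h := sum_hinv D E x b 0 0 1 0 0 0
  simp only [zero_mul, add_zero, one_mul, mul_zero, sub_zero] at h
  rw [h]
  ring

lemma sum_hinv_J (D E : QD) (x : Eu 6) (a b : Fin 6) : ∑ m, hinv D E x a m * Jr m b
    = Jr a b - D.q (‖x‖ ^ 2) / D.X (‖x‖ ^ 2) * Yv x a * x b
      + pP E (‖x‖ ^ 2) * x a * Yv x b := by
  have h := sum_hinv D E x a b 0 0 1 0 0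
  simp only [zero_mul, add_zero, zero_add, one_mul, zero_div, sub_zero] at h
  rw [h]

lemma sum_hinv_Jt (D E : QD) (x : Eu 6) (a b : Fin 6) : ∑ m, hinv D E x a m * Jr b m
    = - (Jr a b - D.q (‖x‖ ^ 2) / D.X (‖x‖ ^ 2) * Yv x a * x b
      + pP E (‖x‖ ^ 2) * x a * Yv x b) := by
  rw [← sum_hinv_J, ← Finset.sum_neg_distrib]
  exact Finset.sum_congr rfl fun m _ => by rw [Jr_anti b m]; ring

lemma hinv_symm (D E : QD) (x : Eu 6) (a b : Fin 6) : hinv D E x a b = hinv D E x b a := by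
  rw [hinv_apply, hinv_apply, dl_comm]
  ring

/-- the derivative of the metric -/
noncomputable def dB (D E : QD) (x : Eu 6) (k i j : Fin 6) : ℝ := D.dg x k i j + dp E x k i j

/-- the derivative of the metric with two indices raised -/
noncomputable def W2 (D E : QD) (x : Eu 6) (j a b : Fin 6) : ℝ :=
  ∑ m, ∑ l, hinv D E x a m * hinv D E x b l * dB D E x l j m

lemma W2_eq (D E : QD) (x : Eu 6) (j a b : Fin 6) :
    W2 D E x j a b
      = (2 * D.q1 (‖x‖ ^ 2) * Yv x j * (x b / E.X (‖x‖ ^ 2))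
          - D.q (‖x‖ ^ 2) * (Jr b j - D.q (‖x‖ ^ 2) / D.X (‖x‖ ^ 2) * Yv x b * x j
            + pP E (‖x‖ ^ 2) * x b * Yv x j)) * (Yv x a / D.X (‖x‖ ^ 2))
        + D.q (‖x‖ ^ 2) * Yv x j * (- ((Jr b a + D.q (‖x‖ ^ 2) / D.X (‖x‖ ^ 2) * Yv x a * x b
            - pP E (‖x‖ ^ 2) * x a * Yv x b)
            - D.q (‖x‖ ^ 2) / D.X (‖x‖ ^ 2) * Yv x b * (x a / E.X (‖x‖ ^ 2))
            + pP E (‖x‖ ^ 2) * x b * (Yv x a / D.X (‖x‖ ^ 2))))
        + (2 * E.q1 (‖x‖ ^ 2) * x j * (x b / E.X (‖x‖ ^ 2))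
            + E.q (‖x‖ ^ 2) * hinv D E x b j) * (x a / E.X (‖x‖ ^ 2))
        + E.q (‖x‖ ^ 2) * x j * (∑ m, hinv D E x a m * hinv D E x b m) := by
  unfold W2
  have h1 : ∀ m, ∑ l, hinv D E x a m * hinv D E x b l * dB D E x l j m
      = (2 * D.q1 (‖x‖ ^ 2) * Yv x j * (x b / E.X (‖x‖ ^ 2))
          - D.q (‖x‖ ^ 2) * (Jr b j - D.q (‖x‖ ^ 2) / D.X (‖x‖ ^ 2) * Yv x b * x j
            + pP E (‖x‖ ^ 2) * x b * Yv x j)) * (hinv D E x a m * Yv x m)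
        + (D.q (‖x‖ ^ 2) * Yv x j) * (hinv D E x a m * Jr m b)
        + (D.q (‖x‖ ^ 2) * Yv x j * (D.q (‖x‖ ^ 2) / D.X (‖x‖ ^ 2)) * Yv x b)
            * (hinv D E x a m * x m)
        + (- D.q (‖x‖ ^ 2) * Yv x j * (pP E (‖x‖ ^ 2) * x b)) * (hinv D E x a m * Yv x m)
        + (2 * E.q1 (‖x‖ ^ 2) * x j * (x b / E.X (‖x‖ ^ 2))
            + E.q (‖x‖ ^ 2) * hinv D E x b j) * (hinv D E x a m * x m)
        + (E.q (‖x‖ ^ 2) * x j) * (hinv D E x a m * hinv D E x b m) := by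
    intro m
    have h2 : ∀ l, hinv D E x a m * hinv D E x b l * dB D E x l j m
        = (hinv D E x a m * (2 * D.q1 (‖x‖ ^ 2) * Yv x j * Yv x m
            + 2 * E.q1 (‖x‖ ^ 2) * x j * x m)) * (hinv D E x b l * x l)
          + (hinv D E x a m * D.q (‖x‖ ^ 2) * Yv x m) * (hinv D E x b l * Jr j l)
          + (hinv D E x a m * D.q (‖x‖ ^ 2) * Yv x j) * (hinv D E x b l * Jr m l)
          + (hinv D E x a m * E.q (‖x‖ ^ 2) * x m) * (hinv D E x b l * dl l j)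
          + (hinv D E x a m * E.q (‖x‖ ^ 2) * x j) * (hinv D E x b l * dl l m) := by
      intro l
      unfold dB QD.dg dp
      rw [dl_comm l j, dl_comm l m]
      ring
    simp only [h2, Finset.sum_add_distrib, ← Finset.mul_sum, sum_hinv_x, sum_hinv_Jt]
    rw [sum_mul_dl j (fun l => hinv D E x b l), sum_mul_dl m (fun l => hinv D E x b l)]
    rw [Jr_anti b m]
    ring
  simp only [h1, Finset.sum_add_distrib, ← Finset.mul_sum, sum_hinv_x, sum_hinv_Y, sum_hinv_J]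
  rw [Jr_anti b a]
  ring

/-- antisymmetrisation of `W2` -/
noncomputable def V2 (D E : QD) (x : Eu 6) (j a b : Fin 6) : ℝ := W2 D E x j a b - W2 D E x j b a

/-- `B = A - P κ` -/
noncomputable def bB (D E : QD) (t : ℝ) : ℝ := D.A t - pP E t * ka D t

lemma V2_eq (D E : QD) (x : Eu 6) (j a b : Fin 6) :
    V2 D E x j a b = Yv x j * ((- 2 * bB D E (‖x‖ ^ 2)) * Zf x a b + 2 * D.q (‖x‖ ^ 2) * Jr a b)
      + (- (D.q (‖x‖ ^ 2) / D.X (‖x‖ ^ 2))) * (Jr j a * Yv x b - Jr j b * Yv x a)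
      + pP E (‖x‖ ^ 2) * (x a * dl j b - x b * dl j a) := by
  unfold V2
  rw [W2_eq, W2_eq]
  have hs : ∑ m, hinv D E x b m * hinv D E x a m = ∑ m, hinv D E x a m * hinv D E x b m :=
    Finset.sum_congr rfl fun m _ => by ring
  rw [hs, hinv_apply, hinv_apply]
  have ht := sq_nonneg ‖x‖
  have hX := (D.X_pos ht).ne'
  have hW := (E.X_pos ht).ne'
  have h3 : D.X (‖x‖ ^ 2) = 1 + ‖x‖ ^ 2 * D.q (‖x‖ ^ 2) := rfl
  have h4 : E.X (‖x‖ ^ 2) = 1 + ‖x‖ ^ 2 * E.q (‖x‖ ^ 2) := rfl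
  have hq := q1_rel D ht
  rw [← h3] at hq
  unfold Zf bB ka pP
  rw [Jr_anti b a, Jr_anti b j, Jr_anti a j, dl_comm a j, dl_comm b j]
  rw [hq]
  generalize D.A (‖x‖ ^ 2) = A at *
  generalize D.q (‖x‖ ^ 2) = q at *
  generalize E.q (‖x‖ ^ 2) = p at *
  generalize ‖x‖ ^ 2 = t at *
  field_simp
  rw [h3, h4]
  ring

end Pool.Agent.H21.GBC
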