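import Pool.Agent.H21.GBC.Flux

/-!
# The flux density of the Gauss-Bonnet-Chern mass: closed form
-/

open scoped BigOperators

namespace Pool.Agent.H21.GBC
open Pool.Agent.H91.GBC

section
variable (D E : QD) (x : Eu 6)

/-- the mixed curvature tensor at `x` -/
noncomputable def TT : Fin 6 → Fin 6 → Fin 6 → Fin 6 → ℝ := tG (cc D E (‖x‖ ^ 2)) x

lemma P_gg (i j m l : Fin 6) :
    P (gg D E) i j m l x = (1 / 2) * (scT (TT D E x) * (hinv D E x i m * hinv D E x j l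
          - hinv D E x j m * hinv D E x i l)
        - 2 * ∑ b, ricT (TT D E x) b i * (hinv D E x b m * hinv D E x j l
            - hinv D E x j m * hinv D E x b l)
        + 2 * ∑ b, ricT (TT D E x) b j * (hinv D E x b m * hinv D E x i l
            - hinv D E x i m * hinv D E x b l)
        + ∑ a, ∑ b, TT D E x a b i j
            * (hinv D E x a m * hinv D E x b l - hinv D E x b m * hinv D E x a l)) := by
  unfold P
  have h := P_aux (TT D E x) (fun k l i j => tG_anti1 _ x k l i j)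
    (fun k l i j => tG_anti2 _ x k l i j) (fun a b => hinv D E x a m * hinv D E x b l) i j
  rw [← h]
  simp only [curv_gg, inv_gg]
  congr 1
  refine Finset.sum_congr rfl fun i₁ _ => Finset.sum_congr rfl fun i₂ _ =>
    Finset.sum_congr rfl fun j₁ _ => Finset.sum_congr rfl fun j₂ _ =>
    Finset.sum_congr rfl fun j₃ _ => Finset.sum_congr rfl fun j₄ _ => ?_
  unfold TT
  ring

lemma V2_sum (j a b : Fin 6) :
    ∑ m, ∑ l, (hinv D E x a m * hinv D E x b l - hinv D E x b m * hinv D E x a l)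
        * dB D E x l j m
      = V2 D E x j a b := by
  unfold V2 W2
  rw [← Finset.sum_sub_distrib]
  refine Finset.sum_congr rfl fun m _ => ?_
  rw [← Finset.sum_sub_distrib]
  refine Finset.sum_congr rfl fun l _ => ?_
  ring

lemma inner_sum2 (i j : Fin 6) :
    ∑ m, ∑ l, P (gg D E) i j m l x * dB D E x l j m
      = (1 / 2) * (scT (TT D E x) * V2 D E x j i j
        - 2 * ∑ b, ricT (TT D E x) b i * V2 D E x j b j
        + 2 * ∑ b, ricT (TT D E x) b j * V2 D E x j b i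
        + ∑ a, ∑ b, TT D E x a b i j * V2 D E x j a b) := by
  have h : ∀ m l, P (gg D E) i j m l x * dB D E x l j m
      = (1 / 2) * (scT (TT D E x)) * ((hinv D E x i m * hinv D E x j l
            - hinv D E x j m * hinv D E x i l) * dB D E x l j m)
        + (-1) * ∑ b, ricT (TT D E x) b i * ((hinv D E x b m * hinv D E x j l
            - hinv D E x j m * hinv D E x b l) * dB D E x l j m)
        + (1) * ∑ b, ricT (TT D E x) b j * ((hinv D E x b m * hinv D E x i l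
            - hinv D E x i m * hinv D E x b l) * dB D E x l j m)
        + (1 / 2) * ∑ a, ∑ b, TT D E x a b i j
            * ((hinv D E x a m * hinv D E x b l - hinv D E x b m * hinv D E x a l)
              * dB D E x l j m) := by
    intro m l
    rw [P_gg]
    have e1 : ∀ u v : Fin 6, (∑ b, ricT (TT D E x) b u * ((hinv D E x b m * hinv D E x v l
            - hinv D E x v m * hinv D E x b l) * dB D E x l j m))
        = (∑ b, ricT (TT D E x) b u * (hinv D E x b m * hinv D E x v l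
            - hinv D E x v m * hinv D E x b l)) * dB D E x l j m := by
      intro u v
      rw [Finset.sum_mul]
      exact Finset.sum_congr rfl fun b _ => by ring
    have e2 : (∑ a, ∑ b, TT D E x a b i j
            * ((hinv D E x a m * hinv D E x b l - hinv D E x b m * hinv D E x a l)
              * dB D E x l j m))
        = (∑ a, ∑ b, TT D E x a b i j
            * (hinv D E x a m * hinv D E x b l - hinv D E x b m * hinv D E x a l))
              * dB D E x l j m := by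
      rw [Finset.sum_mul]
      refine Finset.sum_congr rfl fun a _ => ?_
      rw [Finset.sum_mul]
      exact Finset.sum_congr rfl fun b _ => by ring
    rw [e1, e1, e2]
    ring
  simp only [h, Finset.sum_add_distrib, ← Finset.mul_sum, V2_sum]
  have e3 : ∀ u v : Fin 6, (∑ m, ∑ l, ∑ b, ricT (TT D E x) b u
          * ((hinv D E x b m * hinv D E x v l
            - hinv D E x v m * hinv D E x b l) * dB D E x l j m))
        = ∑ b, ricT (TT D E x) b u * V2 D E x j b v := by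
    intro u v
    have : ∀ m, (∑ l, ∑ b, ricT (TT D E x) b u * ((hinv D E x b m * hinv D E x v l
            - hinv D E x v m * hinv D E x b l) * dB D E x l j m))
        = ∑ b, ∑ l, ricT (TT D E x) b u * ((hinv D E x b m * hinv D E x v l
            - hinv D E x v m * hinv D E x b l) * dB D E x l j m) := fun m => Finset.sum_comm
    simp only [this]
    rw [Finset.sum_comm]
    refine Finset.sum_congr rfl fun b _ => ?_
    simp only [← Finset.mul_sum, V2_sum]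
  have e4 : (∑ m, ∑ l, ∑ a, ∑ b, TT D E x a b i j
            * ((hinv D E x a m * hinv D E x b l - hinv D E x b m * hinv D E x a l)
              * dB D E x l j m))
        = ∑ a, ∑ b, TT D E x a b i j * V2 D E x j a b := by
    have : ∀ m, (∑ l, ∑ a, ∑ b, TT D E x a b i j
            * ((hinv D E x a m * hinv D E x b l - hinv D E x b m * hinv D E x a l)
              * dB D E x l j m))
        = ∑ a, ∑ b, ∑ l, TT D E x a b i j
            * ((hinv D E x a m * hinv D E x b l - hinv D E x b m * hinv D E x a l)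
              * dB D E x l j m) := by
      intro m
      rw [Finset.sum_comm]
      exact Finset.sum_congr rfl fun a _ => Finset.sum_comm
    simp only [this]
    rw [Finset.sum_comm]
    refine Finset.sum_congr rfl fun a _ => ?_
    rw [Finset.sum_comm]
    refine Finset.sum_congr rfl fun b _ => ?_
    simp only [← Finset.mul_sum, V2_sum]
  rw [e3, e3, e4]
  ring

/-- the coefficient in the traces of `V2` -/
noncomputable def vv2 (t : ℝ) : ℝ := 2 * bB D E t * t + D.q t / D.X t + 2 * D.q t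

lemma V2_trace (i : Fin 6) :
    ∑ j, V2 D E x j i j = (5 * pP E (‖x‖ ^ 2) - vv2 D E (‖x‖ ^ 2)) * x i := by
  have hd : ∀ j, dl j j = 1 := by intro j; simp [dl]
  have h : ∀ j, V2 D E x j i j
      = (- 2 * bB D E (‖x‖ ^ 2) * x i) * (Yv x j * Yv x j)
        + (2 * bB D E (‖x‖ ^ 2) * Yv x i) * (Yv x j * x j)
        + (2 * D.q (‖x‖ ^ 2)) * (Jr i j * Yv x j)
        + (- (D.q (‖x‖ ^ 2) / D.X (‖x‖ ^ 2))) * (Yv x j * Jr j i)
        + (pP E (‖x‖ ^ 2) * x i) * 1 + (- pP E (‖x‖ ^ 2)) * (x j * dl j i) := by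
    intro j
    rw [V2_eq, Jr_self, hd j]
    unfold Zf
    ring
  simp only [h, Finset.sum_add_distrib, ← Finset.mul_sum, sum_YY, sum_Yx, sum_JY, sum_YJ]
  rw [sum_mul_dl i (fun j => x j)]
  unfold vv2
  simp only [Finset.sum_const, Finset.card_univ, Fintype.card_fin, nsmul_eq_mul]
  push_cast
  ring

lemma T1 : ∑ i, ∑ j, x i * V2 D E x j i j
    = (5 * pP E (‖x‖ ^ 2) - vv2 D E (‖x‖ ^ 2)) * ‖x‖ ^ 2 := by
  simp only [← Finset.mul_sum, V2_trace]
  have h : ∀ i, x i * ((5 * pP E (‖x‖ ^ 2) - vv2 D E (‖x‖ ^ 2)) * x i)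
      = (5 * pP E (‖x‖ ^ 2) - vv2 D E (‖x‖ ^ 2)) * (x i * x i) := fun i => by ring
  simp only [h, ← Finset.mul_sum, sum_xx]

lemma T2 (c : Fin 9 → ℝ) : ∑ i, ∑ j, x i * ∑ b, ricT (tG c x) b i * V2 D E x j b j
    = (ga c (‖x‖ ^ 2) + gb c (‖x‖ ^ 2) * ‖x‖ ^ 2)
      * (5 * pP E (‖x‖ ^ 2) - vv2 D E (‖x‖ ^ 2)) * ‖x‖ ^ 2 := by
  have h1 : ∀ i, ∑ j, x i * ∑ b, ricT (tG c x) b i * V2 D E x j b j
      = ∑ b, (x i * ricT (tG c x) b i)
        * ((5 * pP E (‖x‖ ^ 2) - vv2 D E (‖x‖ ^ 2)) * x b) := by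
    intro i
    rw [← Finset.mul_sum, Finset.sum_comm, Finset.mul_sum]
    refine Finset.sum_congr rfl fun b _ => ?_
    rw [← Finset.mul_sum, V2_trace]
    ring
  simp only [h1]
  rw [Finset.sum_comm]
  simp only [← Finset.sum_mul]
  have h2 : ∀ b, ∑ i, x i * ricT (tG c x) b i
      = (ga c (‖x‖ ^ 2) + gb c (‖x‖ ^ 2) * ‖x‖ ^ 2) * x b := by
    intro b
    have h3 : ∀ i, x i * ricT (tG c x) b i
        = ga c (‖x‖ ^ 2) * (x i * dl i b) + (gb c (‖x‖ ^ 2) * x b) * (x i * x i)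
          + (gc c (‖x‖ ^ 2) * Yv x b) * (x i * Yv x i) := by
      intro i; rw [ricT_tG]; ring
    simp only [h3, Finset.sum_add_distrib, ← Finset.mul_sum, sum_mul_dl, sum_xx, sum_xY]
    ring
  simp only [h2]
  have h4 : ∀ b, (ga c (‖x‖ ^ 2) + gb c (‖x‖ ^ 2) * ‖x‖ ^ 2) * x b
      * ((5 * pP E (‖x‖ ^ 2) - vv2 D E (‖x‖ ^ 2)) * x b)
      = ((ga c (‖x‖ ^ 2) + gb c (‖x‖ ^ 2) * ‖x‖ ^ 2)
        * (5 * pP E (‖x‖ ^ 2) - vv2 D E (‖x‖ ^ 2))) * (x b * x b) :=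
    fun b => by ring
  simp only [h4, ← Finset.mul_sum, sum_xx]

lemma T3 (c : Fin 9 → ℝ) : ∑ i, ∑ j, x i * ∑ b, ricT (tG c x) b j * V2 D E x j b i
    = (ga c (‖x‖ ^ 2) + gc c (‖x‖ ^ 2) * ‖x‖ ^ 2) * vv2 D E (‖x‖ ^ 2) * ‖x‖ ^ 2
      - pP E (‖x‖ ^ 2) * ‖x‖ ^ 2 * (5 * ga c (‖x‖ ^ 2) + gc c (‖x‖ ^ 2) * ‖x‖ ^ 2) := by
  have hVx : ∀ j b, ∑ i, x i * V2 D E x j b i
      = (2 * bB D E (‖x‖ ^ 2) * ‖x‖ ^ 2 + 2 * D.q (‖x‖ ^ 2)) * (Yv x j * Yv x b)
        + (D.q (‖x‖ ^ 2) / D.X (‖x‖ ^ 2)) * (Yv x j * Yv x b)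
        + pP E (‖x‖ ^ 2) * (x b * x j - ‖x‖ ^ 2 * dl j b) := by
    intro j b
    have h : ∀ i, x i * V2 D E x j b i
        = (- 2 * bB D E (‖x‖ ^ 2) * Yv x j * x b) * (x i * Yv x i)
          + (2 * bB D E (‖x‖ ^ 2) * Yv x j * Yv x b - pP E (‖x‖ ^ 2) * dl j b) * (x i * x i)
          + (2 * D.q (‖x‖ ^ 2) * Yv x j) * (x i * Jr b i)
          + (- (D.q (‖x‖ ^ 2) / D.X (‖x‖ ^ 2)) * Jr j b) * (x i * Yv x i)
          + (D.q (‖x‖ ^ 2) / D.X (‖x‖ ^ 2) * Yv x b) * (x i * Jr j i)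
          + (pP E (‖x‖ ^ 2) * x b) * (x i * dl i j) := by
      intro i
      rw [V2_eq, dl_comm i j]
      unfold Zf
      ring
    simp only [h, Finset.sum_add_distrib, ← Finset.mul_sum, sum_xY, sum_xx, sum_xJt]
    rw [sum_mul_dl j (fun i => x i)]
    ring
  have h1 : ∑ i, ∑ j, x i * ∑ b, ricT (tG c x) b j * V2 D E x j b i
      = ∑ j, ∑ b, ricT (tG c x) b j * ∑ i, x i * V2 D E x j b i := by
    rw [Finset.sum_comm]
    refine Finset.sum_congr rfl fun j _ => ?_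
    simp only [Finset.mul_sum]
    rw [Finset.sum_comm]
    exact Finset.sum_congr rfl fun b _ => Finset.sum_congr rfl fun i _ => by ring
  rw [h1]
  simp only [hVx]
  have hd : ∀ j, dl j j = 1 := by intro j; simp [dl]
  have h2 : ∀ j b, ricT (tG c x) b j * ((2 * bB D E (‖x‖ ^ 2) * ‖x‖ ^ 2 + 2 * D.q (‖x‖ ^ 2))
        * (Yv x j * Yv x b) + (D.q (‖x‖ ^ 2) / D.X (‖x‖ ^ 2)) * (Yv x j * Yv x b)
        + pP E (‖x‖ ^ 2) * (x b * x j - ‖x‖ ^ 2 * dl j b))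
      = (ga c (‖x‖ ^ 2) * vv2 D E (‖x‖ ^ 2) * Yv x j) * (dl j b * Yv x b)
        + (gb c (‖x‖ ^ 2) * vv2 D E (‖x‖ ^ 2) * x j * Yv x j) * (x b * Yv x b)
        + (gc c (‖x‖ ^ 2) * vv2 D E (‖x‖ ^ 2) * (Yv x j * Yv x j)) * (Yv x b * Yv x b)
        + (ga c (‖x‖ ^ 2) * pP E (‖x‖ ^ 2) * x j) * (dl j b * x b)
        + (gb c (‖x‖ ^ 2) * pP E (‖x‖ ^ 2) * (x j * x j)) * (x b * x b)
        + (gc c (‖x‖ ^ 2) * pP E (‖x‖ ^ 2) * x j * Yv x j) * (x b * Yv x b)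
        + (- ga c (‖x‖ ^ 2) * pP E (‖x‖ ^ 2) * ‖x‖ ^ 2) * (dl j b * dl b j)
        + (- gb c (‖x‖ ^ 2) * pP E (‖x‖ ^ 2) * ‖x‖ ^ 2 * x j) * (dl j b * x b)
        + (- gc c (‖x‖ ^ 2) * pP E (‖x‖ ^ 2) * ‖x‖ ^ 2 * Yv x j) * (dl j b * Yv x b) := by
    intro j b
    rw [ricT_tG, dl_comm b j]
    unfold vv2
    ring
  have e1 : ∀ j, ∑ b, dl j b * x b = x j := fun j => sum_dl_mul j (fun b => x b)
  have e2 : ∀ j, ∑ b, dl j b * dl b j = 1 := fun j => by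
    rw [sum_dl_mul j (fun b => dl b j), hd]
  simp only [h2, Finset.sum_add_distrib, ← Finset.mul_sum, sum_dl_mul, sum_xY, sum_YY, sum_xx]
  have h3 : ∀ z : ℝ, ∀ j, z * Yv x j * Yv x j = z * (Yv x j * Yv x j) := fun z j => by ring
  have h5 : ∀ z : ℝ, ∀ j, z * x j * x j = z * (x j * x j) := fun z j => by ring
  have h4 : ∀ z w : ℝ, ∀ j, z * (Yv x j * Yv x j) * w = (z * w) * (Yv x j * Yv x j) :=
    fun z w j => by ring
  have h6 : ∀ z w : ℝ, ∀ j, z * (x j * x j) * w = (z * w) * (x j * x j) :=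
    fun z w j => by ring
  simp only [h3, h4, h5, h6, hd, ← Finset.mul_sum, sum_YY, sum_xx, mul_zero,
    Finset.sum_const_zero]
  simp only [Finset.sum_const, Finset.card_univ, Fintype.card_fin, nsmul_eq_mul]
  push_cast
  ring

lemma K2_eq (c : Fin 9 → ℝ) (k l j : Fin 6) :
    ∑ i, x i * tG c x k l i j
      = Yv x j * ((c 0 * ‖x‖ ^ 2 - c 1 - c 4 + c 5) * Zf x k l
          + (c 2 * ‖x‖ ^ 2 - 2 * c 6) * Jr k l)
        + (c 6 - c 3 * ‖x‖ ^ 2) * (Jr j k * Yv x l - Jr j l * Yv x k)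
        + (c 7 + c 8 * ‖x‖ ^ 2) * (x k * dl j l - x l * dl j k) := by
  simp only [tG_eq_tGG]
  rw [sl_i (w := fun i => x i) (X := fun i => x i) (Y := fun i => Yv x i)
      (P := fun i => Jr i j) (Q := fun i => Jr i k) (R := fun i => Jr i l)
      (S := fun i => dl i k) (T := fun i => dl i l)]
  rw [sum_xx, sum_xY, sum_xJ, sum_xJ, sum_xJ, sum_mul_dl k (fun i => x i),
    sum_mul_dl l (fun i => x i)]
  unfold tGG Zf
  ring

lemma gramUD (k1 k2 k3 : ℝ) :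
    ∑ a, ∑ b, ∑ j, (Yv x j * (k1 * Zf x a b + k2 * Jr a b)
          + k3 * (Jr j a * Yv x b - Jr j b * Yv x a)) * (x a * dl j b - x b * dl j a)
      = k1 * (2 * ‖x‖ ^ 4) + k2 * (- 2 * ‖x‖ ^ 2) + 2 * k3 * ‖x‖ ^ 2 := by
  have h : ∀ a b, ∑ j, (Yv x j * (k1 * Zf x a b + k2 * Jr a b)
          + k3 * (Jr j a * Yv x b - Jr j b * Yv x a)) * (x a * dl j b - x b * dl j a)
      = (k1 * Zf x a b + k2 * Jr a b) * Zf x a b
        + k3 * (x a * (Yv x b * Jr b a)) + k3 * (x b * (Yv x a * Jr a b)) := by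
    intro a b
    have h1 : ∀ j, (Yv x j * (k1 * Zf x a b + k2 * Jr a b)
          + k3 * (Jr j a * Yv x b - Jr j b * Yv x a)) * (x a * dl j b - x b * dl j a)
        = ((k1 * Zf x a b + k2 * Jr a b) * x a) * (Yv x j * dl j b)
          + (k3 * x a * Yv x b) * (Jr j a * dl j b)
          + (- k3 * x a * Yv x a) * (Jr j b * dl j b)
          + (- (k1 * Zf x a b + k2 * Jr a b) * x b) * (Yv x j * dl j a)
          + (- k3 * x b * Yv x b) * (Jr j a * dl j a)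
          + (k3 * x b * Yv x a) * (Jr j b * dl j a) := by
      intro j; ring
    rw [Finset.sum_congr rfl fun j _ => h1 j]
    simp only [Finset.sum_add_distrib, ← Finset.mul_sum]
    rw [sum_mul_dl b (fun j => Yv x j), sum_mul_dl b (fun j => Jr j a),
      sum_mul_dl b (fun j => Jr j b), sum_mul_dl a (fun j => Yv x j),
      sum_mul_dl a (fun j => Jr j a), sum_mul_dl a (fun j => Jr j b), Jr_self, Jr_self]
    have hZ : Zf x a b = x a * Yv x b - x b * Yv x a := rfl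
    rw [hZ]
    ring
  simp only [h, Finset.sum_add_distrib]
  rw [sum_uZ]
  have e1 : ∑ a, ∑ b, k3 * (x a * (Yv x b * Jr b a)) = k3 * ‖x‖ ^ 2 := by
    simp only [← Finset.mul_sum, sum_YJ, sum_xx]
  have e2 : ∑ a, ∑ b, k3 * (x b * (Yv x a * Jr a b)) = k3 * ‖x‖ ^ 2 := by
    rw [Finset.sum_comm]; exact e1
  rw [e1, e2]
  ring

lemma gramDD : ∑ a, ∑ b, ∑ j, (x a * dl j b - x b * dl j a) * (x a * dl j b - x b * dl j a)
      = 10 * ‖x‖ ^ 2 := by
  have hd : ∀ j, dl j j = 1 := by intro j; simp [dl]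
  have h : ∀ a b, ∑ j, (x a * dl j b - x b * dl j a) * (x a * dl j b - x b * dl j a)
      = (x a * x a) * 1 + (x b * x b) * 1 + (-2 * x a) * (dl a b * x b) := by
    intro a b
    have h1 : ∀ j, (x a * dl j b - x b * dl j a) * (x a * dl j b - x b * dl j a)
        = (x a * x a) * (dl j b * dl j b) + (x b * x b) * (dl j a * dl j a)
          + (-2 * x a * x b) * (dl j a * dl j b) := by
      intro j; ring
    rw [Finset.sum_congr rfl fun j _ => h1 j]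
    simp only [Finset.sum_add_distrib, ← Finset.mul_sum]
    rw [sum_mul_dl b (fun j => dl j b), sum_mul_dl a (fun j => dl j a),
      sum_mul_dl b (fun j => dl j a), hd, hd, dl_comm b a]
    ring
  have e1 : ∀ a, ∑ b, dl a b * x b = x a := fun a => sum_dl_mul a (fun b => x b)
  simp only [h, Finset.sum_add_distrib, ← Finset.mul_sum, e1, sum_xx]
  have h5 : ∀ z : ℝ, ∀ j, z * x j * x j = z * (x j * x j) := fun z j => by ring
  simp only [h5, Finset.sum_const, Finset.card_univ, Fintype.card_fin, nsmul_eq_mul, mul_one,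
    ← Finset.mul_sum, ← Finset.sum_mul, sum_xx]
  push_cast
  ring

lemma gram4 (k1 k2 k3 k4 v1 v2 v3 v4 : ℝ) :
    ∑ a, ∑ b, ∑ j, (Yv x j * (k1 * Zf x a b + k2 * Jr a b)
          + k3 * (Jr j a * Yv x b - Jr j b * Yv x a) + k4 * (x a * dl j b - x b * dl j a))
        * (Yv x j * (v1 * Zf x a b + v2 * Jr a b)
          + v3 * (Jr j a * Yv x b - Jr j b * Yv x a) + v4 * (x a * dl j b - x b * dl j a))
      = (‖x‖ ^ 2 * (k1 * v1 * (2 * ‖x‖ ^ 4) + (k1 * v2 + k2 * v1) * (- 2 * ‖x‖ ^ 2)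
          + k2 * v2 * 6)
        + v3 * (k1 * (2 * ‖x‖ ^ 4) + k2 * (- 2 * ‖x‖ ^ 2))
        + k3 * (v1 * (2 * ‖x‖ ^ 4) + v2 * (- 2 * ‖x‖ ^ 2))
        + k3 * v3 * (10 * ‖x‖ ^ 2))
        + v4 * (k1 * (2 * ‖x‖ ^ 4) + k2 * (- 2 * ‖x‖ ^ 2) + 2 * k3 * ‖x‖ ^ 2)
        + k4 * (v1 * (2 * ‖x‖ ^ 4) + v2 * (- 2 * ‖x‖ ^ 2) + 2 * v3 * ‖x‖ ^ 2)
        + k4 * v4 * (10 * ‖x‖ ^ 2) := by
  rw [← gram3 x k1 k2 k3 v1 v2 v3, ← gramUD x k1 k2 k3, ← gramUD x v1 v2 v3, ← gramDD x]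
  simp only [Finset.mul_sum, ← Finset.sum_add_distrib]
  exact Finset.sum_congr rfl fun a _ => Finset.sum_congr rfl fun b _ =>
    Finset.sum_congr rfl fun j _ => by ring

lemma T4 (c : Fin 9 → ℝ) : ∑ i, ∑ j, x i * ∑ a, ∑ b, tG c x a b i j * V2 D E x j a b
    = (‖x‖ ^ 2 * ((c 0 * ‖x‖ ^ 2 - c 1 - c 4 + c 5) * (- 2 * bB D E (‖x‖ ^ 2)) * (2 * ‖x‖ ^ 4)
          + ((c 0 * ‖x‖ ^ 2 - c 1 - c 4 + c 5) * (2 * D.q (‖x‖ ^ 2))
            + (c 2 * ‖x‖ ^ 2 - 2 * c 6) * (- 2 * bB D E (‖x‖ ^ 2))) * (- 2 * ‖x‖ ^ 2)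
          + (c 2 * ‖x‖ ^ 2 - 2 * c 6) * (2 * D.q (‖x‖ ^ 2)) * 6)
        + (- (D.q (‖x‖ ^ 2) / D.X (‖x‖ ^ 2)))
          * ((c 0 * ‖x‖ ^ 2 - c 1 - c 4 + c 5) * (2 * ‖x‖ ^ 4)
            + (c 2 * ‖x‖ ^ 2 - 2 * c 6) * (- 2 * ‖x‖ ^ 2))
        + (c 6 - c 3 * ‖x‖ ^ 2) * ((- 2 * bB D E (‖x‖ ^ 2)) * (2 * ‖x‖ ^ 4)
            + (2 * D.q (‖x‖ ^ 2)) * (- 2 * ‖x‖ ^ 2))
        + (c 6 - c 3 * ‖x‖ ^ 2) * (- (D.q (‖x‖ ^ 2) / D.X (‖x‖ ^ 2))) * (10 * ‖x‖ ^ 2))
      + pP E (‖x‖ ^ 2) * ((c 0 * ‖x‖ ^ 2 - c 1 - c 4 + c 5) * (2 * ‖x‖ ^ 4)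
          + (c 2 * ‖x‖ ^ 2 - 2 * c 6) * (- 2 * ‖x‖ ^ 2) + 2 * (c 6 - c 3 * ‖x‖ ^ 2) * ‖x‖ ^ 2)
      + (c 7 + c 8 * ‖x‖ ^ 2) * ((- 2 * bB D E (‖x‖ ^ 2)) * (2 * ‖x‖ ^ 4)
          + (2 * D.q (‖x‖ ^ 2)) * (- 2 * ‖x‖ ^ 2)
          + 2 * (- (D.q (‖x‖ ^ 2) / D.X (‖x‖ ^ 2))) * ‖x‖ ^ 2)
      + (c 7 + c 8 * ‖x‖ ^ 2) * pP E (‖x‖ ^ 2) * (10 * ‖x‖ ^ 2) := by
  rw [← gram4]
  have h1 : ∑ i, ∑ j, x i * ∑ a, ∑ b, tG c x a b i j * V2 D E x j a b
      = ∑ i, ∑ j, ∑ a, ∑ b, (x i * tG c x a b i j) * V2 D E x j a b := by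
    refine Finset.sum_congr rfl fun i _ => Finset.sum_congr rfl fun j _ => ?_
    simp only [Finset.mul_sum]
    exact Finset.sum_congr rfl fun a _ => Finset.sum_congr rfl fun b _ => by ring
  rw [h1]
  calc ∑ i, ∑ j, ∑ a, ∑ b, (x i * tG c x a b i j) * V2 D E x j a b
      = ∑ j, ∑ i, ∑ a, ∑ b, (x i * tG c x a b i j) * V2 D E x j a b := Finset.sum_comm
    _ = ∑ j, ∑ a, ∑ i, ∑ b, (x i * tG c x a b i j) * V2 D E x j a b :=
        Finset.sum_congr rfl fun j _ => Finset.sum_comm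
    _ = ∑ j, ∑ a, ∑ b, ∑ i, (x i * tG c x a b i j) * V2 D E x j a b :=
        Finset.sum_congr rfl fun j _ => Finset.sum_congr rfl fun a _ => Finset.sum_comm
    _ = ∑ a, ∑ j, ∑ b, ∑ i, (x i * tG c x a b i j) * V2 D E x j a b := Finset.sum_comm
    _ = ∑ a, ∑ b, ∑ j, ∑ i, (x i * tG c x a b i j) * V2 D E x j a b :=
        Finset.sum_congr rfl fun a _ => Finset.sum_comm
    _ = _ := by
        refine Finset.sum_congr rfl fun a _ => Finset.sum_congr rfl fun b _ =>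
          Finset.sum_congr rfl fun j _ => ?_
        rw [← Finset.sum_mul, K2_eq, V2_eq]

/-- closed form of the flux density times `|x|` -/
noncomputable def fl (t P q κ X : ℝ) : ℝ :=
  6 * t * (5 * P ^ 2 - P * (q + q / X) + 4 * (1 - t * P) * κ * (q - P) + q ^ 2 / X)

theorem flux_density2 :
    ∑ i, ∑ j, ∑ m, ∑ l, P (gg D E) i j m l x * pd l (fun z => gg D E z j m) x * (x i / ‖x‖)
      = fl (‖x‖ ^ 2) (pP E (‖x‖ ^ 2)) (D.q (‖x‖ ^ 2)) (ka D (‖x‖ ^ 2)) (D.X (‖x‖ ^ 2)) / ‖x‖ := by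
  have h1 : ∀ i j, ∑ m, ∑ l, P (gg D E) i j m l x * pd l (fun z => gg D E z j m) x * (x i / ‖x‖)
      = (∑ m, ∑ l, P (gg D E) i j m l x * dB D E x l j m) * (x i / ‖x‖) := by
    intro i j
    rw [Finset.sum_mul]
    refine Finset.sum_congr rfl fun m _ => ?_
    rw [Finset.sum_mul]
    exact Finset.sum_congr rfl fun l _ => by rw [pd_gg]; rfl
  simp only [h1, inner_sum2]
  have h2 : ∀ i j, (1 / 2) * (scT (TT D E x) * V2 D E x j i j
        - 2 * ∑ b, ricT (TT D E x) b i * V2 D E x j b j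
        + 2 * ∑ b, ricT (TT D E x) b j * V2 D E x j b i
        + ∑ a, ∑ b, TT D E x a b i j * V2 D E x j a b) * (x i / ‖x‖)
      = (1 / (2 * ‖x‖) * scT (TT D E x)) * (x i * V2 D E x j i j)
        + (- 1 / ‖x‖) * (x i * ∑ b, ricT (TT D E x) b i * V2 D E x j b j)
        + (1 / ‖x‖) * (x i * ∑ b, ricT (TT D E x) b j * V2 D E x j b i)
        + (1 / (2 * ‖x‖)) * (x i * ∑ a, ∑ b, TT D E x a b i j * V2 D E x j a b) := by
    intro i j
    by_cases hx : ‖x‖ = 0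
    · simp [hx]
    · field_simp
      ring
  simp only [h2]
  rw [QD.sum4 _ _ _ _ (fun i j => x i * V2 D E x j i j)
    (fun i j => x i * ∑ b, ricT (TT D E x) b i * V2 D E x j b j)
    (fun i j => x i * ∑ b, ricT (TT D E x) b j * V2 D E x j b i)
    (fun i j => x i * ∑ a, ∑ b, TT D E x a b i j * V2 D E x j a b)]
  unfold TT
  rw [T1, T2, T3, T4, scT_tG]
  by_cases hx : ‖x‖ = 0
  · simp [hx, fl]
  · have ht := sq_nonneg ‖x‖
    have hX := (D.X_pos ht).ne'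
    have h3 : D.X (‖x‖ ^ 2) = 1 + ‖x‖ ^ 2 * D.q (‖x‖ ^ 2) := rfl
    have hq := q1_rel D ht
    rw [← h3] at hq
    have h4 : ‖x‖ ^ 4 = (‖x‖ ^ 2) ^ 2 := by ring
    simp only [ga, gb, gc, cc, Matrix.cons_val_zero, Matrix.cons_val_one, Matrix.cons_val, h4]
    unfold fl vv2 bB k1 k2 k3 ka
    rw [hq]
    generalize pP E (‖x‖ ^ 2) = P at *
    generalize pP1 E (‖x‖ ^ 2) = P1 at *
    generalize D.al (‖x‖ ^ 2) = al at *
    generalize D.A (‖x‖ ^ 2) = A at *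
    generalize D.q (‖x‖ ^ 2) = q at *
    generalize D.X (‖x‖ ^ 2) = X at *
    generalize ‖x‖ = r at *
    field_simp
    rw [h3]
    ring

end
end Pool.Agent.H21.GBC
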