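import Pool.Agent.H91.GBCComplete

/-!
# The metric `δ + q (|x|²) Jx ⊗ Jx + p (|x|²) x ⊗ x` on `ℝ⁶`: Christoffel symbols

`D : QD` is the profile `q` of the part `Jx ⊗ Jx`, `E : QD` is the profile `p` of the part
`x ⊗ x`.
-/

open MeasureTheory Filter Topology
open scoped BigOperators ContDiff Nat

namespace Pool.Agent.H21.GBC
open Pool.Agent.H91.GBC

/-- the metric -/
noncomputable def gg (D E : QD) : MatField 6 := fun x => Matrix.of fun i j =>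
  dl i j + D.q (‖x‖ ^ 2) * Yv x i * Yv x j + E.q (‖x‖ ^ 2) * x i * x j

lemma gg_apply (D E : QD) (x : Eu 6) (i j : Fin 6) :
    gg D E x i j = D.g x i j + E.q (‖x‖ ^ 2) * x i * x j := rfl

/-- `P = p / (1 + t p)` -/
noncomputable def pP (E : QD) (t : ℝ) : ℝ := E.q t / E.X t
/-- the derivative of `P` -/
noncomputable def pP1 (E : QD) (t : ℝ) : ℝ := E.A t / E.X t
/-- `M = p' / (1 + t p)` -/
noncomputable def pM (E : QD) (t : ℝ) : ℝ := E.q1 t / E.X t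
/-- the derivative of `M` -/
noncomputable def pM1 (E : QD) (t : ℝ) : ℝ :=
  (E.q2 t * E.X t - E.q1 t * (E.q t + t * E.q1 t)) / E.X t ^ 2
/-- `N = P (t q' + 2 q)` -/
noncomputable def pN (D E : QD) (t : ℝ) : ℝ := pP E t * (t * D.q1 t + 2 * D.q t)
/-- the derivative of `N` -/
noncomputable def pN1 (D E : QD) (t : ℝ) : ℝ :=
  pP1 E t * (t * D.q1 t + 2 * D.q t) + pP E t * (3 * D.q1 t + t * D.q2 t)

lemma hasDerivAt_pP (E : QD) {t : ℝ} (ht : 0 ≤ t) : HasDerivAt (pP E) (pP1 E t) t := by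
  have h2 := (E.hq t ht).fun_div (E.hasDerivAt_X ht) (E.X_pos ht).ne'
  refine HasDerivAt.congr_deriv h2 ?_
  have h3 : E.X t = 1 + t * E.q t := rfl
  have hX := (E.X_pos ht).ne'
  unfold pP1 QD.A
  rw [h3] at hX ⊢
  field_simp
  ring

lemma hasDerivAt_pM (E : QD) {t : ℝ} (ht : 0 ≤ t) : HasDerivAt (pM E) (pM1 E t) t :=
  (E.hq1 t ht).fun_div (E.hasDerivAt_X ht) (E.X_pos ht).ne'

lemma hasDerivAt_pN (D E : QD) {t : ℝ} (ht : 0 ≤ t) : HasDerivAt (pN D E) (pN1 D E t) t := by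
  have h2 := (hasDerivAt_pP E ht).fun_mul ((((hasDerivAt_id' t).fun_mul (D.hq1 t ht))).fun_add
    ((D.hq t ht).const_mul 2))
  refine HasDerivAt.congr_deriv h2 ?_
  unfold pN1
  ring

/-- the inverse matrix of the metric -/
noncomputable def hinv (D E : QD) (x : Eu 6) : Matrix (Fin 6) (Fin 6) ℝ := Matrix.of fun i j =>
  dl i j - D.q (‖x‖ ^ 2) / D.X (‖x‖ ^ 2) * Yv x i * Yv x j - pP E (‖x‖ ^ 2) * x i * x j

lemma hinv_apply (D E : QD) (x : Eu 6) (i j : Fin 6) :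
    hinv D E x i j = dl i j - D.q (‖x‖ ^ 2) / D.X (‖x‖ ^ 2) * Yv x i * Yv x j
      - pP E (‖x‖ ^ 2) * x i * x j := rfl

lemma hinv_eq (D E : QD) (x : Eu 6) (i j : Fin 6) :
    hinv D E x i j = D.ginv x i j - pP E (‖x‖ ^ 2) * x i * x j := rfl

lemma inv_gg (D E : QD) (x : Eu 6) : (gg D E x)⁻¹ = hinv D E x := by
  apply Matrix.inv_eq_right_inv
  ext i j
  rw [Matrix.mul_apply]
  have hX := (D.X_pos (sq_nonneg ‖x‖)).ne'
  have hW := (E.X_pos (sq_nonneg ‖x‖)).ne'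
  set ρ := ‖x‖ ^ 2 with hρ
  have h1 : ∀ m, gg D E x i m * hinv D E x m j = dl i m * dl m j
      + (- (D.q ρ / D.X ρ) * Yv x j) * (dl i m * Yv x m)
      + (- pP E ρ * x j) * (dl i m * x m)
      + (D.q ρ * Yv x i) * (Yv x m * dl m j)
      + (- D.q ρ * (D.q ρ / D.X ρ) * Yv x i * Yv x j) * (Yv x m * Yv x m)
      + (- D.q ρ * pP E ρ * Yv x i * x j) * (Yv x m * x m)
      + (E.q ρ * x i) * (x m * dl m j)
      + (- E.q ρ * (D.q ρ / D.X ρ) * x i * Yv x j) * (x m * Yv x m)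
      + (- E.q ρ * pP E ρ * x i * x j) * (x m * x m) := by
    intro m
    rw [gg_apply, hinv_apply, QD.g_apply]
    ring
  rw [Finset.sum_congr rfl fun m _ => h1 m]
  simp only [Finset.sum_add_distrib, ← Finset.mul_sum]
  rw [sum_dl_mul, sum_dl_mul, sum_dl_mul i (fun m => x m), sum_mul_dl, sum_YY, sum_Yx,
    sum_mul_dl j (fun m => x m), sum_xY, sum_xx, ← hρ]
  have h2 : (1 : Matrix (Fin 6) (Fin 6) ℝ) i j = dl i j := by
    unfold dl; rw [Matrix.one_apply]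
  rw [h2]
  have h3 : D.X ρ = 1 + ρ * D.q ρ := rfl
  have h4 : E.X ρ = 1 + ρ * E.q ρ := rfl
  unfold pP
  field_simp
  rw [h3, h4]
  ring

/-- the derivative of the part `p x ⊗ x` -/
noncomputable def dp (E : QD) (x : Eu 6) (k i j : Fin 6) : ℝ :=
  2 * E.q1 (‖x‖ ^ 2) * x k * x i * x j + E.q (‖x‖ ^ 2) * (dl i k * x j + x i * dl j k)

lemma hpd_p (E : QD) (x : Eu 6) (k i j : Fin 6) :
    HPD k (fun z => E.q (‖z‖ ^ 2) * z i * z j) x (dp E x k i j) := by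
  have hx : ∀ i : Fin 6, HPD k (fun z : Eu 6 => z i) x (dl i k) := fun i => HPD.coord i
  have h := ((E.hpd_q x k).mul (hx i)).mul (hx j)
  refine HPD.congr_val h ?_
  unfold dp
  ring

lemma hpd_gg (D E : QD) (x : Eu 6) (k i j : Fin 6) :
    HPD k (fun z => gg D E z i j) x (D.dg x k i j + dp E x k i j) :=
  (D.hpd_g x k i j).add (hpd_p E x k i j)

lemma pd_gg (D E : QD) (x : Eu 6) (k i j : Fin 6) :
    pd k (fun z => gg D E z i j) x = D.dg x k i j + dp E x k i j :=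
  (hpd_gg D E x k i j).pd_eq

/-- the symmetric tensor `S = P δ + M x ⊗ x + N Jx ⊗ Jx` -/
noncomputable def sS (D E : QD) (l j : Fin 6) (x : Eu 6) : ℝ :=
  pP E (‖x‖ ^ 2) * dl l j + pM E (‖x‖ ^ 2) * x l * x j + pN D E (‖x‖ ^ 2) * Yv x l * Yv x j

/-- closed form of the Christoffel symbols -/
noncomputable def chr2 (D E : QD) (i j k : Fin 6) (x : Eu 6) : ℝ :=
  D.chr i j k x + x i * sS D E j k x

lemma sum_hinv (D E : QD) (x : Eu 6) (i j k : Fin 6) (a1 a2 a3 a4 : ℝ) :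
    ∑ m, hinv D E x i m * (a1 * Yv x m + a2 * Jr m j + a3 * Jr m k + a4 * x m)
      = a1 * Yv x i / D.X (‖x‖ ^ 2) + a2 * Jr i j + a3 * Jr i k
        + a4 * x i / E.X (‖x‖ ^ 2)
        - D.q (‖x‖ ^ 2) / D.X (‖x‖ ^ 2) * Yv x i * (a2 * x j + a3 * x k)
        + pP E (‖x‖ ^ 2) * x i * (a2 * Yv x j + a3 * Yv x k) := by
  have hX := (D.X_pos (sq_nonneg ‖x‖)).ne'
  have hW := (E.X_pos (sq_nonneg ‖x‖)).ne'
  have h1 : ∀ m, hinv D E x i m * (a1 * Yv x m + a2 * Jr m j + a3 * Jr m k + a4 * x m)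
      = a1 * (dl i m * Yv x m) + a2 * (dl i m * Jr m j) + a3 * (dl i m * Jr m k)
        + a4 * (dl i m * x m)
        + (- (D.q (‖x‖ ^ 2) / D.X (‖x‖ ^ 2)) * Yv x i * a1) * (Yv x m * Yv x m)
        + (- (D.q (‖x‖ ^ 2) / D.X (‖x‖ ^ 2)) * Yv x i * a2) * (Yv x m * Jr m j)
        + (- (D.q (‖x‖ ^ 2) / D.X (‖x‖ ^ 2)) * Yv x i * a3) * (Yv x m * Jr m k)
        + (- (D.q (‖x‖ ^ 2) / D.X (‖x‖ ^ 2)) * Yv x i * a4) * (Yv x m * x m)
        + (- pP E (‖x‖ ^ 2) * x i * a1) * (x m * Yv x m)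
        + (- pP E (‖x‖ ^ 2) * x i * a2) * (x m * Jr m j)
        + (- pP E (‖x‖ ^ 2) * x i * a3) * (x m * Jr m k)
        + (- pP E (‖x‖ ^ 2) * x i * a4) * (x m * x m) := by
    intro m
    rw [hinv_apply]
    ring
  rw [Finset.sum_congr rfl fun m _ => h1 m]
  simp only [Finset.sum_add_distrib, ← Finset.mul_sum]
  rw [sum_dl_mul, sum_dl_mul, sum_dl_mul, sum_dl_mul i (fun m => x m), sum_YY, sum_YJ, sum_YJ,
    sum_Yx, sum_xY, sum_xJ, sum_xJ, sum_xx]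
  have h3 : D.X (‖x‖ ^ 2) = 1 + (‖x‖ ^ 2) * D.q (‖x‖ ^ 2) := rfl
  have h4 : E.X (‖x‖ ^ 2) = 1 + (‖x‖ ^ 2) * E.q (‖x‖ ^ 2) := rfl
  unfold pP
  generalize ‖x‖ ^ 2 = ρ at *
  field_simp
  rw [h3, h4]
  ring

lemma christoffel_gg (D E : QD) (i j k : Fin 6) (x : Eu 6) :
    christoffel (gg D E) i j k x = chr2 D E i j k x := by
  unfold christoffel
  have h1 : ∀ m, (gg D E x)⁻¹ i m *
      (pd j (fun z => gg D E z m k) x + pd k (fun z => gg D E z m j) x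
        - pd m (fun z => gg D E z j k) x)
      = hinv D E x i m * ((2 * D.q1 (‖x‖ ^ 2) * (x j * Yv x k + x k * Yv x j)) * Yv x m
        + (2 * D.q (‖x‖ ^ 2) * Yv x k) * Jr m j + (2 * D.q (‖x‖ ^ 2) * Yv x j) * Jr m k
        + (- (2 * D.q1 (‖x‖ ^ 2) * Yv x j * Yv x k) + 2 * E.q1 (‖x‖ ^ 2) * x j * x k
          + 2 * E.q (‖x‖ ^ 2) * dl j k) * x m) := by
    intro m
    rw [inv_gg, pd_gg, pd_gg, pd_gg]
    unfold QD.dg dp
    rw [Jr_anti k j, Jr_anti j m, Jr_anti k m, dl_comm m j, dl_comm m k, dl_comm k j]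
    ring
  rw [Finset.sum_congr rfl fun m _ => h1 m, sum_hinv]
  have hX := (D.X_pos (sq_nonneg ‖x‖)).ne'
  have hW := (E.X_pos (sq_nonneg ‖x‖)).ne'
  have h3 : D.X (‖x‖ ^ 2) = 1 + (‖x‖ ^ 2) * D.q (‖x‖ ^ 2) := rfl
  have h4 : E.X (‖x‖ ^ 2) = 1 + (‖x‖ ^ 2) * E.q (‖x‖ ^ 2) := rfl
  unfold chr2 QD.chr sS pN pM pP QD.A
  generalize ‖x‖ ^ 2 = ρ at *
  field_simp
  simp only [h3, h4]
  ring

lemma christoffel_fun2 (D E : QD) (i j k : Fin 6) :
    christoffel (gg D E) i j k = chr2 D E i j k := by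
  funext x; exact christoffel_gg D E i j k x

/-- the derivative of `S` -/
noncomputable def dS (D E : QD) (m l j : Fin 6) (x : Eu 6) : ℝ :=
  2 * pP1 E (‖x‖ ^ 2) * x m * dl l j + 2 * pM1 E (‖x‖ ^ 2) * x m * x l * x j
    + pM E (‖x‖ ^ 2) * (dl l m * x j + x l * dl j m)
    + 2 * pN1 D E (‖x‖ ^ 2) * x m * Yv x l * Yv x j
    + pN D E (‖x‖ ^ 2) * (Jr l m * Yv x j + Yv x l * Jr j m)

lemma hpd_S (D E : QD) (m l j : Fin 6) (x : Eu 6) :
    HPD m (sS D E l j) x (dS D E m l j x) := by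
  have hx : ∀ i : Fin 6, HPD m (fun z : Eu 6 => z i) x (dl i m) := fun i => HPD.coord i
  have hY : ∀ i : Fin 6, HPD m (fun z : Eu 6 => Yv z i) x (Jr i m) := fun i => HPD.Yv i
  have hP := HPD.comp (hasDerivAt_pP E (sq_nonneg ‖x‖)) (HPD.normSq (k := m) (x := x))
  have hM := HPD.comp (hasDerivAt_pM E (sq_nonneg ‖x‖)) (HPD.normSq (k := m) (x := x))
  have hN := HPD.comp (hasDerivAt_pN D E (sq_nonneg ‖x‖)) (HPD.normSq (k := m) (x := x))
  have h := ((hP.mul (HPD.const (dl l j))).add ((hM.mul (hx l)).mul (hx j))).add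
    ((hN.mul (hY l)).mul (hY j))
  have h5 : (sS D E l j) = fun z => pP E (‖z‖ ^ 2) * dl l j + pM E (‖z‖ ^ 2) * z l * z j
    + pN D E (‖z‖ ^ 2) * Yv z l * Yv z j := rfl
  rw [h5]
  refine HPD.congr_val h ?_
  unfold dS
  ring

lemma hpd_chr (D : QD) (m i j k : Fin 6) (x : Eu 6) :
    HPD m (D.chr i j k) x (D.dchr m i j k x) := by
  have hx : ∀ i : Fin 6, HPD m (fun z : Eu 6 => z i) x (dl i m) := fun i => HPD.coord i
  have hY : ∀ i : Fin 6, HPD m (fun z : Eu 6 => Yv z i) x (Jr i m) := fun i => HPD.Yv i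
  have h1 := ((D.hpd_A x m).mul (hY i)).mul (((hx j).mul (hY k)).add ((hx k).mul (hY j)))
  have h2 := (((D.hpd_q1 x m).mul (hx i)).mul (hY j)).mul (hY k)
  have h3 := (D.hpd_q x m).mul
    (((HPD.const (k := m) (x := x) (Jr i j)).mul (hY k)).add
      ((HPD.const (k := m) (x := x) (Jr i k)).mul (hY j)))
  have h4 := (h1.sub h2).add h3
  have h5 : (D.chr i j k) = fun z => D.A (‖z‖ ^ 2) * Yv z i * (z j * Yv z k + z k * Yv z j)
    - D.q1 (‖z‖ ^ 2) * z i * Yv z j * Yv z k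
    + D.q (‖z‖ ^ 2) * (Jr i j * Yv z k + Jr i k * Yv z j) := rfl
  rw [h5]
  refine HPD.congr_val h4 ?_
  unfold QD.dchr
  ring

lemma pd_chr2 (D E : QD) (m i j k : Fin 6) (x : Eu 6) :
    pd m (chr2 D E i j k) x
      = D.dchr m i j k x + (dl i m * sS D E j k x + x i * dS D E m j k x) := by
  have hx : ∀ i : Fin 6, HPD m (fun z : Eu 6 => z i) x (dl i m) := fun i => HPD.coord i
  exact ((hpd_chr D m i j k x).add ((hx i).mul (hpd_S D E m j k x))).pd_eq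

end Pool.Agent.H21.GBC
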