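import Pool.Agent.H21.GBC.Riem

/-!
# The mixed Riemann tensor `R_{kl}^{ij}` of `δ + q (|x|²) Jx ⊗ Jx + p (|x|²) x ⊗ x` on `ℝ⁶`
-/

open MeasureTheory Filter Topology
open scoped BigOperators ContDiff Nat

namespace Pool.Agent.H21.GBC
open Pool.Agent.H91.GBC

/-- coefficient -/
noncomputable def k1 (D : QD) (t : ℝ) : ℝ := - D.al t * t - 2 * D.q1 t - 2 * D.A t
/-- coefficient -/
noncomputable def k2 (D : QD) (t : ℝ) : ℝ := 2 * D.A t * t + 2 * D.q t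
/-- coefficient -/
noncomputable def k3 (D : QD) (t : ℝ) : ℝ := - (D.q1 t * t + D.q t)

/-- the contraction of the mixed tensor of `D.g` with `x` in its first upper slot -/
noncomputable def kK (D : QD) (j k l : Fin 6) (x : Eu 6) : ℝ :=
  Yv x j * (k1 D (‖x‖ ^ 2) * Zf x k l + k2 D (‖x‖ ^ 2) * Jr k l)
    + k3 D (‖x‖ ^ 2) * (Jr j k * Yv x l - Jr j l * Yv x k)

lemma sum_x_rm (D : QD) (x : Eu 6) (i k l : Fin 6) :
    ∑ m, x m * D.rm i m k l x = - kK D i k l x := by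
  have h1 : ∀ m, x m * D.rm i m k l x
      = (D.al (‖x‖ ^ 2) * Yv x i * Zf x k l) * (x m * x m)
        + (D.be (‖x‖ ^ 2) * x i * Zf x k l) * (x m * Yv x m)
        + (D.q1 (‖x‖ ^ 2) * Jr i k * Yv x l) * (x m * x m)
        + (- D.q1 (‖x‖ ^ 2) * Jr i k * x l) * (x m * Yv x m)
        + (- D.q1 (‖x‖ ^ 2) * Jr i l * Yv x k) * (x m * x m)
        + (D.q1 (‖x‖ ^ 2) * Jr i l * x k) * (x m * Yv x m)
        + (2 * D.q1 (‖x‖ ^ 2) * Zf x k l) * (Jr i m * x m)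
        + (2 * D.q1 (‖x‖ ^ 2) * x i * Jr k l) * (x m * Yv x m)
        + (- D.q1 (‖x‖ ^ 2) * x i * Yv x l) * (x m * Jr m k)
        + (D.q1 (‖x‖ ^ 2) * x i * Yv x k) * (x m * Jr m l)
        + (D.A (‖x‖ ^ 2) * Yv x i * x l) * (x m * Jr m k)
        + (- D.A (‖x‖ ^ 2) * Yv x i * x k) * (x m * Jr m l)
        + (D.A (‖x‖ ^ 2) * Yv x i * Yv x l) * (x m * dl m k)
        + (- D.A (‖x‖ ^ 2) * Yv x i * Yv x k) * (x m * dl m l)
        + (-2 * D.A (‖x‖ ^ 2) * Yv x i * Jr k l) * (x m * x m)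
        + ((D.q (‖x‖ ^ 2) ^ 2 - D.q1 (‖x‖ ^ 2)) * (dl i k * Yv x l - dl i l * Yv x k))
            * (x m * Yv x m)
        + (D.q (‖x‖ ^ 2) * Jr i l) * (x m * Jr m k)
        + (- D.q (‖x‖ ^ 2) * Jr i k) * (x m * Jr m l)
        + (-2 * D.q (‖x‖ ^ 2) * Jr k l) * (Jr i m * x m) := by
    intro m
    unfold QD.rm
    rw [show Zf x m l = x m * Yv x l - x l * Yv x m from rfl,
      show Zf x m k = x m * Yv x k - x k * Yv x m from rfl]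
    ring
  rw [Finset.sum_congr rfl fun m _ => h1 m]
  simp only [Finset.sum_add_distrib, ← Finset.mul_sum]
  rw [sum_xx, sum_xY, sum_xJ, sum_xJ, sum_Jx, sum_mul_dl k (fun m => x m),
    sum_mul_dl l (fun m => x m)]
  unfold kK k1 k2 k3 Zf
  ring

lemma cm_identity (D : QD) (k l i j : Fin 6) (x : Eu 6) :
    ∑ m, D.ginv x j m * D.rm i m k l x = D.cm k l i j x := by
  have h := D.curv_eq k l i j x
  unfold curv at h
  simp only [QD.riem_eq, QD.inv_g] at h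
  exact h

/-- `S^j_l` -/
noncomputable def sR (D E : QD) (j l : Fin 6) (x : Eu 6) : ℝ :=
  pP E (‖x‖ ^ 2) * dl j l + pP1 E (‖x‖ ^ 2) * x j * x l
    + pP E (‖x‖ ^ 2) * ka D (‖x‖ ^ 2) * Yv x j * Yv x l

lemma ka_mul_X (D : QD) {t : ℝ} (ht : 0 ≤ t) : ka D t * D.X t = D.q t + t * D.q1 t := by
  have hAX := D.A_mul_X ht
  have h3 : D.X t = 1 + t * D.q t := rfl
  unfold ka
  rw [h3]
  linear_combination t * hAX

/-- the scalar identities of the profile `p` -/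
lemma p_sc (E : QD) {t : ℝ} (ht : 0 ≤ t) :
    pM E t * (1 - t * pP E t) - pP E t ^ 2 = pP1 E t := by
  have hW := (E.X_pos ht).ne'
  have h4 : E.X t = 1 + t * E.q t := rfl
  unfold pP1 pM pP QD.A
  field_simp
  rw [h4]
  ring

lemma inv_X (D : QD) {t : ℝ} (ht : 0 ≤ t) : 1 - t * (D.q t / D.X t) = 1 / D.X t := by
  have hX := (D.X_pos ht).ne'
  have h3 : D.X t = 1 + t * D.q t := rfl
  field_simp
  rw [h3]
  ring

lemma sum_hinv_S (D E : QD) (x : Eu 6) (j l : Fin 6) :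
    ∑ m, hinv D E x j m * sS D E l m x = sR D E j l x := by
  have h1 : ∀ m, hinv D E x j m * sS D E l m x
      = (pP E (‖x‖ ^ 2)) * (dl j m * dl m l)
        + (pM E (‖x‖ ^ 2) * x l) * (dl j m * x m)
        + (pN D E (‖x‖ ^ 2) * Yv x l) * (dl j m * Yv x m)
        + (- (D.q (‖x‖ ^ 2) / D.X (‖x‖ ^ 2)) * Yv x j * pP E (‖x‖ ^ 2)) * (Yv x m * dl m l)
        + (- (D.q (‖x‖ ^ 2) / D.X (‖x‖ ^ 2)) * Yv x j * pM E (‖x‖ ^ 2) * x l) * (Yv x m * x m)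
        + (- (D.q (‖x‖ ^ 2) / D.X (‖x‖ ^ 2)) * Yv x j * pN D E (‖x‖ ^ 2) * Yv x l)
          * (Yv x m * Yv x m)
        + (- pP E (‖x‖ ^ 2) * x j * pP E (‖x‖ ^ 2)) * (x m * dl m l)
        + (- pP E (‖x‖ ^ 2) * x j * pM E (‖x‖ ^ 2) * x l) * (x m * x m)
        + (- pP E (‖x‖ ^ 2) * x j * pN D E (‖x‖ ^ 2) * Yv x l) * (x m * Yv x m) := by
    intro m
    rw [hinv_apply]
    unfold sS
    rw [dl_comm l m]
    ring
  rw [Finset.sum_congr rfl fun m _ => h1 m]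
  simp only [Finset.sum_add_distrib, ← Finset.mul_sum]
  rw [sum_dl_mul, sum_dl_mul j (fun m => x m), sum_dl_mul, sum_mul_dl, sum_Yx, sum_YY,
    sum_mul_dl l (fun m => x m), sum_xx, sum_xY]
  have ht := sq_nonneg ‖x‖
  have e1 := p_sc E ht
  have e2 := inv_X D ht
  have e3 := ka_mul_X D ht
  have hX := (D.X_pos ht).ne'
  unfold sR
  have e4 : pN D E (‖x‖ ^ 2) * (1 - ‖x‖ ^ 2 * (D.q (‖x‖ ^ 2) / D.X (‖x‖ ^ 2)))
      - pP E (‖x‖ ^ 2) * (D.q (‖x‖ ^ 2) / D.X (‖x‖ ^ 2)) = pP E (‖x‖ ^ 2) * ka D (‖x‖ ^ 2) := by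
    rw [e2]
    unfold pN
    field_simp
    linear_combination (- pP E (‖x‖ ^ 2)) * e3
  linear_combination (x j * x l) * e1 + (Yv x j * Yv x l) * e4

lemma sum_hinv_F (D E : QD) (x : Eu 6) (j k l : Fin 6) :
    ∑ m, hinv D E x j m * fF D E m k l x
      = - pP E (‖x‖ ^ 2) * kK D j k l x
        + pP1 E (‖x‖ ^ 2) * (x k * dl j l - x l * dl j k)
        + pP1 E (‖x‖ ^ 2) * ka D (‖x‖ ^ 2) * Yv x j * Zf x k l := by
  set f1 := (2 * pN1 D E (‖x‖ ^ 2) - pP E (‖x‖ ^ 2) * (D.A (‖x‖ ^ 2) + D.q1 (‖x‖ ^ 2))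
        - pM E (‖x‖ ^ 2) * (‖x‖ ^ 2 * D.q1 (‖x‖ ^ 2) + 2 * D.q (‖x‖ ^ 2))
        - pN D E (‖x‖ ^ 2) * ka D (‖x‖ ^ 2)
        + (pP E (‖x‖ ^ 2) + pM E (‖x‖ ^ 2) * ‖x‖ ^ 2) * pN D E (‖x‖ ^ 2)) with hf1
  set f2 := (- 2 * pN D E (‖x‖ ^ 2) + 2 * pP E (‖x‖ ^ 2) * D.q (‖x‖ ^ 2)) with hf2
  set f3 := (pN D E (‖x‖ ^ 2) - pP E (‖x‖ ^ 2) * D.q (‖x‖ ^ 2)) with hf3
  have h1 : ∀ m, hinv D E x j m * fF D E m k l x
      = (pP1 E (‖x‖ ^ 2) * x k) * (dl j m * dl m l)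
        + (- pP1 E (‖x‖ ^ 2) * x l) * (dl j m * dl m k)
        + (f1 * Zf x k l + f2 * Jr k l) * (dl j m * Yv x m)
        + (f3 * Yv x l) * (dl j m * Jr m k)
        + (- f3 * Yv x k) * (dl j m * Jr m l)
        + (- (D.q (‖x‖ ^ 2) / D.X (‖x‖ ^ 2)) * Yv x j * pP1 E (‖x‖ ^ 2) * x k)
          * (Yv x m * dl m l)
        + ((D.q (‖x‖ ^ 2) / D.X (‖x‖ ^ 2)) * Yv x j * pP1 E (‖x‖ ^ 2) * x l)
          * (Yv x m * dl m k)
        + (- (D.q (‖x‖ ^ 2) / D.X (‖x‖ ^ 2)) * Yv x j * (f1 * Zf x k l + f2 * Jr k l))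
          * (Yv x m * Yv x m)
        + (- (D.q (‖x‖ ^ 2) / D.X (‖x‖ ^ 2)) * Yv x j * f3 * Yv x l) * (Yv x m * Jr m k)
        + ((D.q (‖x‖ ^ 2) / D.X (‖x‖ ^ 2)) * Yv x j * f3 * Yv x k) * (Yv x m * Jr m l)
        + (- pP E (‖x‖ ^ 2) * x j * pP1 E (‖x‖ ^ 2) * x k) * (x m * dl m l)
        + (pP E (‖x‖ ^ 2) * x j * pP1 E (‖x‖ ^ 2) * x l) * (x m * dl m k)
        + (- pP E (‖x‖ ^ 2) * x j * (f1 * Zf x k l + f2 * Jr k l)) * (x m * Yv x m)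
        + (- pP E (‖x‖ ^ 2) * x j * f3 * Yv x l) * (x m * Jr m k)
        + (pP E (‖x‖ ^ 2) * x j * f3 * Yv x k) * (x m * Jr m l) := by
    intro m
    rw [hinv_apply]
    unfold fF
    rw [← hf1, ← hf2, ← hf3]
    ring
  rw [Finset.sum_congr rfl fun m _ => h1 m]
  simp only [Finset.sum_add_distrib, ← Finset.mul_sum]
  rw [sum_dl_mul, sum_dl_mul, sum_dl_mul, sum_dl_mul, sum_dl_mul, sum_mul_dl, sum_mul_dl,
    sum_YY, sum_YJ, sum_YJ, sum_mul_dl l (fun m => x m), sum_mul_dl k (fun m => x m),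
    sum_xY, sum_xJ, sum_xJ]
  have ht := sq_nonneg ‖x‖
  have e1 := p_sc E ht
  have e2 := inv_X D ht
  have e3 := ka_mul_X D ht
  have hX := (D.X_pos ht).ne'
  have h3 : D.X (‖x‖ ^ 2) = 1 + ‖x‖ ^ 2 * D.q (‖x‖ ^ 2) := rfl
  have hAX := D.A_mul_X ht
  rw [← h3] at hAX
  have hA1 : D.A1 (‖x‖ ^ 2) * D.X (‖x‖ ^ 2) = D.q2 (‖x‖ ^ 2)
      - 2 * D.q (‖x‖ ^ 2) * D.q1 (‖x‖ ^ 2) - D.A (‖x‖ ^ 2) * (D.q (‖x‖ ^ 2)
        + ‖x‖ ^ 2 * D.q1 (‖x‖ ^ 2)) := by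
    unfold QD.A1 QD.A
    field_simp
  have e5 : f3 = - pP E (‖x‖ ^ 2) * k3 D (‖x‖ ^ 2) := by
    rw [hf3]; unfold pN k3; ring
  have e6 : f2 = - pP E (‖x‖ ^ 2) * k2 D (‖x‖ ^ 2) * D.X (‖x‖ ^ 2) := by
    rw [hf2]
    unfold pN k2
    unfold ka at e3
    linear_combination (2 * pP E (‖x‖ ^ 2)) * e3
  have e7 : f1 = (- pP E (‖x‖ ^ 2) * k1 D (‖x‖ ^ 2)
      + pP1 E (‖x‖ ^ 2) * ka D (‖x‖ ^ 2)) * D.X (‖x‖ ^ 2)
      + (pP1 E (‖x‖ ^ 2) - pP E (‖x‖ ^ 2) * k3 D (‖x‖ ^ 2)) * D.q (‖x‖ ^ 2) := by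
    rw [hf1]
    unfold pN1 pN k1 k3 QD.al ka
    unfold ka at e3
    generalize pP E (‖x‖ ^ 2) = P at *
    generalize pP1 E (‖x‖ ^ 2) = P1 at *
    generalize pM E (‖x‖ ^ 2) = M at *
    generalize D.A1 (‖x‖ ^ 2) = A1 at *
    generalize D.A (‖x‖ ^ 2) = A at *
    generalize D.X (‖x‖ ^ 2) = X at *
    generalize D.q (‖x‖ ^ 2) = q at *
    generalize D.q1 (‖x‖ ^ 2) = q1 at *
    generalize D.q2 (‖x‖ ^ 2) = q2 at *
    generalize ‖x‖ ^ 2 = t at *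
    linear_combination (-(t * q1 + 2 * q)) * e1 + (-2 * P * t) * hA1
      + (- P * t * (A * t + q) - 3 * P) * hAX + (- P1 + P * q) * e3
      + (-2 * P * q1 - P * q * (A * t + q) + P * A) * h3
  have e9 : D.X (‖x‖ ^ 2) * (1 - ‖x‖ ^ 2 * (D.q (‖x‖ ^ 2) / D.X (‖x‖ ^ 2))) = 1 := by
    rw [e2]; field_simp
  have e10 : D.q (‖x‖ ^ 2) * (1 - ‖x‖ ^ 2 * (D.q (‖x‖ ^ 2) / D.X (‖x‖ ^ 2)))
      = D.q (‖x‖ ^ 2) / D.X (‖x‖ ^ 2) := by
    rw [e2]; field_simp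
  rw [e7, e6, e5]
  unfold kK
  have hZ : Zf x k l = x k * Yv x l - x l * Yv x k := rfl
  linear_combination (Yv x j * Zf x k l * (- pP E (‖x‖ ^ 2) * k1 D (‖x‖ ^ 2)
      + pP1 E (‖x‖ ^ 2) * ka D (‖x‖ ^ 2))
      + Yv x j * Jr k l * (- pP E (‖x‖ ^ 2) * k2 D (‖x‖ ^ 2))) * e9
    + (Yv x j * Zf x k l * (pP1 E (‖x‖ ^ 2) - pP E (‖x‖ ^ 2) * k3 D (‖x‖ ^ 2))) * e10
    + (D.q (‖x‖ ^ 2) / D.X (‖x‖ ^ 2) * Yv x j * (pP1 E (‖x‖ ^ 2)
      - pP E (‖x‖ ^ 2) * k3 D (‖x‖ ^ 2))) * hZ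

/-- closed form of a mixed tensor with nine coefficients -/
noncomputable def tG (c : Fin 9 → ℝ) (x : Eu 6) (k l i j : Fin 6) : ℝ :=
  c 0 * Zf x i j * Zf x k l + c 1 * Jr i j * Zf x k l + c 2 * Zf x i j * Jr k l
    + c 3 * (x j * (Jr i k * Yv x l - Jr i l * Yv x k)
        - x i * (Jr j k * Yv x l - Jr j l * Yv x k))
    + c 4 * (Yv x i * (x l * Jr j k - x k * Jr j l)
        - Yv x j * (x l * Jr i k - x k * Jr i l))
    + c 5 * (dl i k * Yv x j * Yv x l + Yv x i * Yv x k * dl j l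
        - dl i l * Yv x j * Yv x k - Yv x i * Yv x l * dl j k)
    + c 6 * (Jr i k * Jr j l - Jr i l * Jr j k + 2 * Jr i j * Jr k l)
    + c 7 * (dl i k * dl j l - dl i l * dl j k)
    + c 8 * (dl i k * x j * x l + x i * x k * dl j l - dl i l * x j * x k - x i * x l * dl j k)

/-- the nine coefficients of the curvature -/
noncomputable def cc (D E : QD) (t : ℝ) : Fin 9 → ℝ :=
  ![- D.al t - pP E t * k1 D t + pP1 E t * ka D t, 2 * D.q1 t, 2 * D.A t - pP E t * k2 D t,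
    D.q1 t + pP E t * k3 D t, D.A t, - D.A t + pP E t * ka D t, - D.q t, pP E t, pP1 E t]

theorem curv_gg (D E : QD) (k l i j : Fin 6) (x : Eu 6) :
    curv (gg D E) k l i j x = tG (cc D E (‖x‖ ^ 2)) x k l i j := by
  unfold curv
  simp only [riem_gg, inv_gg]
  have h1 : ∀ m, hinv D E x j m * rm2 D E i m k l x
      = D.ginv x j m * D.rm i m k l x
        + (- pP E (‖x‖ ^ 2) * x j) * (x m * D.rm i m k l x)
        + (dl i k + ka D (‖x‖ ^ 2) * Yv x i * Yv x k) * (hinv D E x j m * sS D E l m x)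
        + (- (dl i l + ka D (‖x‖ ^ 2) * Yv x i * Yv x l)) * (hinv D E x j m * sS D E k m x)
        + x i * (hinv D E x j m * fF D E m k l x) := by
    intro m
    have e : hinv D E x j m * D.rm i m k l x = D.ginv x j m * D.rm i m k l x
        + (- pP E (‖x‖ ^ 2) * x j) * (x m * D.rm i m k l x) := by
      rw [hinv_eq]; ring
    unfold rm2
    rw [mul_add, mul_add, mul_add, e]
    ring
  rw [Finset.sum_congr rfl fun m _ => h1 m]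
  simp only [Finset.sum_add_distrib, ← Finset.mul_sum]
  rw [cm_identity, sum_x_rm, sum_hinv_S, sum_hinv_S, sum_hinv_F]
  simp only [tG, cc, Matrix.cons_val_zero, Matrix.cons_val_one, Matrix.cons_val]
  unfold QD.cm kK sR Zf
  ring

end Pool.Agent.H21.GBC
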