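import Pool.Agent.H21.GBC.Flux2

/-!
# The profiles `q (t) = 4 (1+t)^(-3/2)` and `p (t) = (1+t)^(-3/2) + 2 (1+t)^(-2)`
-/

open scoped BigOperators ContDiff
open Filter Topology

namespace Pool.Agent.H21.GBC
open Pool.Agent.H91.GBC

/-- the profile of the part `x ⊗ x` -/
noncomputable def profE : QD where
  q t := sf t ^ 3 + 2 * sf t ^ 4
  q1 t := -(3 / 2) * sf t ^ 5 - 4 * sf t ^ 6
  q2 t := (15 / 4) * sf t ^ 7 + 12 * sf t ^ 8
  hq t ht := by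
    have := ((hasDerivAt_sf ht).fun_pow 3).fun_add (((hasDerivAt_sf ht).fun_pow 4).const_mul 2)
    refine HasDerivAt.congr_deriv this ?_
    push_cast
    ring
  hq1 t ht := by
    have := (((hasDerivAt_sf ht).fun_pow 5).const_mul (-(3 / 2))).fun_sub
      (((hasDerivAt_sf ht).fun_pow 6).const_mul 4)
    refine HasDerivAt.congr_deriv this ?_
    push_cast
    ring
  hX t ht := by
    have := sf_pos ht
    positivity

/-- the metric -/
noncomputable def gR : MatField 6 := gg prof profE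

lemma profE_q (t : ℝ) : profE.q t = sf t ^ 3 + 2 * sf t ^ 4 := rfl
lemma profE_q1 (t : ℝ) : profE.q1 t = -(3 / 2) * sf t ^ 5 - 4 * sf t ^ 6 := rfl
lemma profE_q2 (t : ℝ) : profE.q2 t = (15 / 4) * sf t ^ 7 + 12 * sf t ^ 8 := rfl

lemma profE_X {t : ℝ} (ht : 0 ≤ t) :
    profE.X t = 1 + (sf t + 2 * sf t ^ 2) * (1 - sf t ^ 2) := by
  have h := sf_sq_mul ht
  show 1 + t * (sf t ^ 3 + 2 * sf t ^ 4) = _
  linear_combination (sf t + 2 * sf t ^ 2) * h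

lemma profE_X_ge {t : ℝ} (ht : 0 ≤ t) : 1 ≤ profE.X t := by
  have := sf_pos ht
  show 1 ≤ 1 + t * (sf t ^ 3 + 2 * sf t ^ 4)
  have : 0 ≤ t * (sf t ^ 3 + 2 * sf t ^ 4) := by positivity
  linarith

lemma profE_X_le {t : ℝ} (ht : 0 ≤ t) : profE.X t ≤ 4 := by
  rw [profE_X ht]
  have h1 := sf_pos ht
  have h2 := sf_le_one ht
  have h3 : (sf t + 2 * sf t ^ 2) * (1 - sf t ^ 2) ≤ 3 * 1 := by
    have a1 : sf t ^ 2 ≤ 1 := pow_le_one₀ h1.le h2
    have a2 : 0 ≤ sf t ^ 2 := by positivity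
    apply mul_le_mul <;> linarith
  linarith

/-- the polynomial deciding the sign of the scalar curvature -/
noncomputable def rp (s : ℝ) : ℝ :=
  15 + 90 * s + 171 * s ^ 2 + 290 * s ^ 3 + 236 * s ^ 4 - 418 * s ^ 5 - 1048 * s ^ 6
    + 882 * s ^ 7 + 2728 * s ^ 8 - 2944 * s ^ 9 - 4960 * s ^ 10 + 3184 * s ^ 11
    + 3840 * s ^ 12 - 1024 * s ^ 13 - 1024 * s ^ 14

/-- the polynomial deciding the sign of `L_2` -/
noncomputable def lp (s : ℝ) : ℝ :=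
  600 + 4920 * s + 15048 * s ^ 2 + 47952 * s ^ 3 + 49680 * s ^ 4 - 27552 * s ^ 5
    - 100752 * s ^ 6 - 133728 * s ^ 7 - 18048 * s ^ 8 + 118080 * s ^ 9 + 221952 * s ^ 10
    + 157440 * s ^ 11 - 376320 * s ^ 12 - 321024 * s ^ 13 + 279552 * s ^ 14
    + 208896 * s ^ 15 - 73728 * s ^ 16 - 49152 * s ^ 17

lemma rp_pos {s : ℝ} (h0 : 0 ≤ s) (h1 : s ≤ 1) : 0 < rp s := by
  have h2 : 0 ≤ 1 - s := by linarith
  have key : rp s = 15 * (1 - s) ^ 14 + 300 * (s * (1 - s) ^ 13)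
      + 2706 * (s ^ 2 * (1 - s) ^ 12) + 14822 * (s ^ 3 * (1 - s) ^ 11)
      + 55467 * (s ^ 4 * (1 - s) ^ 10) + 149892 * (s ^ 5 * (1 - s) ^ 9)
      + 299180 * (s ^ 6 * (1 - s) ^ 8) + 442822 * (s ^ 7 * (1 - s) ^ 7)
      + 485475 * (s ^ 8 * (1 - s) ^ 6) + 395334 * (s ^ 9 * (1 - s) ^ 5)
      + 235352 * (s ^ 10 * (1 - s) ^ 4) + 90524 * (s ^ 11 * (1 - s) ^ 3)
      + 15483 * (s ^ 12 * (1 - s) ^ 2) + 1026 * (s ^ 13 * (1 - s)) + 18 * s ^ 14 := by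
    unfold rp; ring
  rw [key]
  rcases h0.eq_or_lt with h | h
  · rw [← h]; norm_num
  · positivity

lemma lp_pos {s : ℝ} (h0 : 0 ≤ s) (h1 : s ≤ 1) : 0 < lp s := by
  have h2 : 0 ≤ 1 - s := by linarith
  have key : lp s = 600 * (1 - s) ^ 17 + 15120 * (s * (1 - s) ^ 16)
      + 175368 * (s ^ 2 * (1 - s) ^ 15) + 1272072 * (s ^ 3 * (1 - s) ^ 14)
      + 6484248 * (s ^ 4 * (1 - s) ^ 13) + 24495960 * (s ^ 5 * (1 - s) ^ 12)
      + 70354872 * (s ^ 6 * (1 - s) ^ 11) + 155405304 * (s ^ 7 * (1 - s) ^ 10)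
      + 264749016 * (s ^ 8 * (1 - s) ^ 9) + 346353864 * (s ^ 9 * (1 - s) ^ 8)
      + 344009784 * (s ^ 10 * (1 - s) ^ 7) + 254803896 * (s ^ 11 * (1 - s) ^ 6)
      + 137830248 * (s ^ 12 * (1 - s) ^ 5) + 53393640 * (s ^ 13 * (1 - s) ^ 4)
      + 14185992 * (s ^ 14 * (1 - s) ^ 3) + 2150472 * (s ^ 15 * (1 - s) ^ 2)
      + 153168 * (s ^ 16 * (1 - s)) + 3816 * s ^ 17 := by
    unfold lp; ring
  rw [key]
  rcases h0.eq_or_lt with h | h
  · rw [← h]; norm_num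
  · positivity

lemma lp_le {s : ℝ} (h0 : 0 ≤ s) (h1 : s ≤ 1) : lp s ≤ 1104120 := by
  unfold lp
  have a1 : ∀ n : ℕ, 0 ≤ s ^ n := fun n => by positivity
  have a2 : ∀ n : ℕ, s ^ n ≤ 1 := fun n => pow_le_one₀ h0 h1
  linarith [a2 2, a2 3, a2 4, a1 5, a1 6, a1 7, a1 8, a2 9, a2 10, a2 11, a1 12, a1 13, a2 14,
    a2 15, a1 16, a1 17]

lemma ka_prof {t : ℝ} (ht : 0 ≤ t) :
    ka prof t = sf t ^ 3 * (6 * sf t ^ 2 - 2) / prof.X t := by
  have h := ka_mul_X prof ht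
  have hs := sf_sq_mul ht
  rw [eq_div_iff (prof.X_pos ht).ne', h, prof_q, prof_q1]
  linear_combination (-6 * sf t ^ 3) * hs

/-- the derivative of `κ` -/
lemma kp_prof {t : ℝ} (ht : 0 ≤ t) :
    t * (prof.al t - prof.A t * ka prof t) / 2 + prof.A t + prof.q1 t
      = ((3 * sf t ^ 5 - 15 * sf t ^ 7) * prof.X t
          - (sf t ^ 3 * (6 * sf t ^ 2 - 2)) ^ 2) / prof.X t ^ 2 := by
  have hX := (prof.X_pos ht).ne'
  have hs := sf_sq_mul ht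
  have hXe := prof_X ht
  unfold QD.al ka QD.A1 QD.A
  rw [prof_q, prof_q1, prof_q2]
  have hs0 := (sf_pos ht).ne'
  generalize prof.X t = X at *
  generalize sf t = s at *
  have ht' : t = (1 - s ^ 2) / s ^ 2 := by
    field_simp; linarith
  subst ht'
  field_simp
  subst hXe
  ring

theorem scal_closed (x : Eu 6) : scalCurv gR x
    = sf (‖x‖ ^ 2) ^ 3 * rp (sf (‖x‖ ^ 2)) / (profE.X (‖x‖ ^ 2) ^ 2 * prof.X (‖x‖ ^ 2) ^ 2) := by
  unfold gR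
  rw [scalCurv_gg]
  have ht : 0 ≤ ‖x‖ ^ 2 := sq_nonneg _
  generalize ‖x‖ ^ 2 = t at *
  have hs := sf_sq_mul ht
  have hX := (prof.X_pos ht).ne'
  have hW := (profE.X_pos ht).ne'
  unfold rh kh
  rw [kp_prof ht, ka_prof ht]
  unfold pP pP1 QD.A
  rw [prof_q, profE_q, profE_q1]
  have hs0 := (sf_pos ht).ne'
  have hXe := prof_X ht
  have hWe := profE_X ht
  generalize prof.X t = X at *
  generalize profE.X t = W at *
  generalize sf t = s at *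
  have ht' : t = (1 - s ^ 2) / s ^ 2 := by
    field_simp; linarith
  subst ht'
  unfold rp
  field_simp
  subst hXe hWe
  ring

theorem L2_closed2 (x : Eu 6) : L2 gR x
    = sf (‖x‖ ^ 2) ^ 7 * lp (sf (‖x‖ ^ 2)) / (profE.X (‖x‖ ^ 2) ^ 3 * prof.X (‖x‖ ^ 2) ^ 2) := by
  unfold gR
  rw [L2_gg_closed]
  have ht : 0 ≤ ‖x‖ ^ 2 := sq_nonneg _
  generalize ‖x‖ ^ 2 = t at *
  have hs := sf_sq_mul ht
  have hX := (prof.X_pos ht).ne'
  have hW := (profE.X_pos ht).ne'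
  unfold lh kh
  rw [kp_prof ht, ka_prof ht]
  unfold pP pP1 QD.A
  rw [prof_q, profE_q, profE_q1]
  have hs0 := (sf_pos ht).ne'
  have hXe := prof_X ht
  have hWe := profE_X ht
  generalize prof.X t = X at *
  generalize profE.X t = W at *
  generalize sf t = s at *
  have ht' : t = (1 - s ^ 2) / s ^ 2 := by
    field_simp; linarith
  subst ht'
  unfold lp
  field_simp
  subst hXe hWe
  ring

theorem scal_pos (x : Eu 6) : 0 < scalCurv gR x := by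
  rw [scal_closed]
  have hs := sf_pos (sq_nonneg ‖x‖)
  have hp := rp_pos hs.le (sf_le_one (sq_nonneg ‖x‖))
  have hX := prof.X_pos (sq_nonneg ‖x‖)
  have hW := profE.X_pos (sq_nonneg ‖x‖)
  positivity

theorem L2_pos2 (x : Eu 6) : 0 < L2 gR x := by
  rw [L2_closed2]
  have hs := sf_pos (sq_nonneg ‖x‖)
  have hp := lp_pos hs.le (sf_le_one (sq_nonneg ‖x‖))
  have hX := prof.X_pos (sq_nonneg ‖x‖)
  have hW := profE.X_pos (sq_nonneg ‖x‖)
  positivity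

end Pool.Agent.H21.GBC
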