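import Pool.Agent.H21.GBC.Metric

/-!
# The curvature of `δ + q (|x|²) Jx ⊗ Jx + p (|x|²) x ⊗ x` on `ℝ⁶`
-/

open MeasureTheory Filter Topology
open scoped BigOperators ContDiff Nat

namespace Pool.Agent.H21.GBC
open Pool.Agent.H91.GBC

/-- `κ = t A + q` -/
noncomputable def ka (D : QD) (t : ℝ) : ℝ := D.A t * t + D.q t

lemma sum_chr_x (D : QD) (x : Eu 6) (i k : Fin 6) :
    ∑ m, D.chr i k m x * x m = ka D (‖x‖ ^ 2) * Yv x i * Yv x k := by
  have h1 : ∀ m, D.chr i k m x * x m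
      = (D.A (‖x‖ ^ 2) * Yv x i * x k) * (Yv x m * x m)
        + (D.A (‖x‖ ^ 2) * Yv x i * Yv x k) * (x m * x m)
        + (- D.q1 (‖x‖ ^ 2) * x i * Yv x k) * (Yv x m * x m)
        + (D.q (‖x‖ ^ 2) * Jr i k) * (Yv x m * x m)
        + (D.q (‖x‖ ^ 2) * Yv x k) * (Jr i m * x m) := by
    intro m; unfold QD.chr; ring
  rw [Finset.sum_congr rfl fun m _ => h1 m]
  simp only [Finset.sum_add_distrib, ← Finset.mul_sum]
  rw [sum_Yx, sum_xx, sum_Jx]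
  unfold ka
  ring

lemma sum_x_chr (D : QD) (x : Eu 6) (l j : Fin 6) :
    ∑ m, x m * D.chr m l j x
      = - (‖x‖ ^ 2 * D.q1 (‖x‖ ^ 2) + 2 * D.q (‖x‖ ^ 2)) * Yv x l * Yv x j := by
  have h1 : ∀ m, x m * D.chr m l j x
      = (D.A (‖x‖ ^ 2) * (x l * Yv x j + x j * Yv x l)) * (x m * Yv x m)
        + (- D.q1 (‖x‖ ^ 2) * Yv x l * Yv x j) * (x m * x m)
        + (D.q (‖x‖ ^ 2) * Yv x j) * (x m * Jr m l)
        + (D.q (‖x‖ ^ 2) * Yv x l) * (x m * Jr m j) := by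
    intro m; unfold QD.chr; ring
  rw [Finset.sum_congr rfl fun m _ => h1 m]
  simp only [Finset.sum_add_distrib, ← Finset.mul_sum]
  rw [sum_xY, sum_xx, sum_xJ, sum_xJ]
  ring

lemma sum_Y_chr (D : QD) (x : Eu 6) (l j : Fin 6) :
    ∑ m, Yv x m * D.chr m l j x
      = ka D (‖x‖ ^ 2) * (x l * Yv x j + x j * Yv x l) := by
  have h1 : ∀ m, Yv x m * D.chr m l j x
      = (D.A (‖x‖ ^ 2) * (x l * Yv x j + x j * Yv x l)) * (Yv x m * Yv x m)
        + (- D.q1 (‖x‖ ^ 2) * Yv x l * Yv x j) * (Yv x m * x m)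
        + (D.q (‖x‖ ^ 2) * Yv x j) * (Yv x m * Jr m l)
        + (D.q (‖x‖ ^ 2) * Yv x l) * (Yv x m * Jr m j) := by
    intro m; unfold QD.chr; ring
  rw [Finset.sum_congr rfl fun m _ => h1 m]
  simp only [Finset.sum_add_distrib, ← Finset.mul_sum]
  rw [sum_YY, sum_Yx, sum_YJ, sum_YJ]
  unfold ka
  ring

lemma sum_S_chr (D E : QD) (x : Eu 6) (k l j : Fin 6) :
    ∑ m, sS D E k m x * D.chr m l j x
      = pP E (‖x‖ ^ 2) * D.chr k l j x
        - pM E (‖x‖ ^ 2) * x k * (‖x‖ ^ 2 * D.q1 (‖x‖ ^ 2) + 2 * D.q (‖x‖ ^ 2))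
          * Yv x l * Yv x j
        + pN D E (‖x‖ ^ 2) * Yv x k * ka D (‖x‖ ^ 2) * (x l * Yv x j + x j * Yv x l) := by
  have h1 : ∀ m, sS D E k m x * D.chr m l j x
      = pP E (‖x‖ ^ 2) * (dl k m * D.chr m l j x)
        + (pM E (‖x‖ ^ 2) * x k) * (x m * D.chr m l j x)
        + (pN D E (‖x‖ ^ 2) * Yv x k) * (Yv x m * D.chr m l j x) := by
    intro m; unfold sS; ring
  rw [Finset.sum_congr rfl fun m _ => h1 m]
  simp only [Finset.sum_add_distrib, ← Finset.mul_sum]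
  rw [sum_dl_mul k (fun m => D.chr m l j x), sum_x_chr, sum_Y_chr]
  ring

lemma sum_S_x (D E : QD) (x : Eu 6) (k : Fin 6) :
    ∑ m, sS D E k m x * x m
      = (pP E (‖x‖ ^ 2) + pM E (‖x‖ ^ 2) * ‖x‖ ^ 2) * x k := by
  have h1 : ∀ m, sS D E k m x * x m
      = pP E (‖x‖ ^ 2) * (dl k m * x m)
        + (pM E (‖x‖ ^ 2) * x k) * (x m * x m)
        + (pN D E (‖x‖ ^ 2) * Yv x k) * (Yv x m * x m) := by
    intro m; unfold sS; ring
  rw [Finset.sum_congr rfl fun m _ => h1 m]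
  simp only [Finset.sum_add_distrib, ← Finset.mul_sum]
  rw [sum_dl_mul k (fun m => x m), sum_xx, sum_Yx]
  ring

lemma sum_chr2 (D E : QD) (x : Eu 6) (i k l j : Fin 6) :
    ∑ m, chr2 D E i k m x * chr2 D E m l j x
      = ∑ m, D.chr i k m x * D.chr m l j x
        + ka D (‖x‖ ^ 2) * Yv x i * Yv x k * sS D E l j x
        + x i * (∑ m, sS D E k m x * D.chr m l j x)
        + x i * ((pP E (‖x‖ ^ 2) + pM E (‖x‖ ^ 2) * ‖x‖ ^ 2) * x k) * sS D E l j x := by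
  have h1 : ∀ m, chr2 D E i k m x * chr2 D E m l j x
      = D.chr i k m x * D.chr m l j x + sS D E l j x * (D.chr i k m x * x m)
        + x i * (sS D E k m x * D.chr m l j x)
        + (x i * sS D E l j x) * (sS D E k m x * x m) := by
    intro m; unfold chr2; ring
  rw [Finset.sum_congr rfl fun m _ => h1 m]
  simp only [Finset.sum_add_distrib, ← Finset.mul_sum]
  rw [sum_chr_x, sum_S_x]
  ring

/-- the algebraic identity behind the Riemann tensor of `D.g` -/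
lemma rm_identity (D : QD) (i j k l : Fin 6) (x : Eu 6) :
    D.dchr k i l j x - D.dchr l i k j x
      + (∑ m, D.chr i k m x * D.chr m l j x - ∑ m, D.chr i l m x * D.chr m k j x)
      = D.rm i j k l x := by
  have h := D.riem_eq i j k l x
  unfold riem at h
  rw [Finset.sum_sub_distrib] at h
  simp only [QD.christoffel_fun] at h
  rw [QD.pd_chr, QD.pd_chr] at h
  exact h

/-- the tensor `F_{jkl}` -/
noncomputable def fF (D E : QD) (j k l : Fin 6) (x : Eu 6) : ℝ :=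
  pP1 E (‖x‖ ^ 2) * (x k * dl j l - x l * dl j k)
    + (2 * pN1 D E (‖x‖ ^ 2) - pP E (‖x‖ ^ 2) * (D.A (‖x‖ ^ 2) + D.q1 (‖x‖ ^ 2))
        - pM E (‖x‖ ^ 2) * (‖x‖ ^ 2 * D.q1 (‖x‖ ^ 2) + 2 * D.q (‖x‖ ^ 2))
        - pN D E (‖x‖ ^ 2) * ka D (‖x‖ ^ 2)
        + (pP E (‖x‖ ^ 2) + pM E (‖x‖ ^ 2) * ‖x‖ ^ 2) * pN D E (‖x‖ ^ 2)) * Yv x j * Zf x k l
    + (- 2 * pN D E (‖x‖ ^ 2) + 2 * pP E (‖x‖ ^ 2) * D.q (‖x‖ ^ 2)) * Yv x j * Jr k l
    + (pN D E (‖x‖ ^ 2) - pP E (‖x‖ ^ 2) * D.q (‖x‖ ^ 2)) * (Jr j k * Yv x l - Jr j l * Yv x k)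

/-- closed form of the Riemann tensor -/
noncomputable def rm2 (D E : QD) (i j k l : Fin 6) (x : Eu 6) : ℝ :=
  D.rm i j k l x + (dl i k * sS D E l j x - dl i l * sS D E k j x)
    + ka D (‖x‖ ^ 2) * Yv x i * (Yv x k * sS D E l j x - Yv x l * sS D E k j x)
    + x i * fF D E j k l x

lemma pP_rel (E : QD) {t : ℝ} (ht : 0 ≤ t) :
    2 * pP1 E t - pM E t + pP E t ^ 2 + pP E t * pM E t * t = pP1 E t := by
  have hW := (E.X_pos ht).ne'
  have h4 : E.X t = 1 + t * E.q t := rfl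
  unfold pP1 pM pP QD.A
  field_simp
  rw [h4]
  ring

lemma riem_gg (D E : QD) (i j k l : Fin 6) (x : Eu 6) :
    riem (gg D E) i j k l x = rm2 D E i j k l x := by
  unfold riem
  rw [Finset.sum_sub_distrib]
  simp only [christoffel_fun2]
  rw [sum_chr2, sum_chr2, pd_chr2, pd_chr2, sum_S_chr, sum_S_chr]
  have h := rm_identity D i j k l x
  have hrel := pP_rel E (sq_nonneg ‖x‖)
  unfold rm2
  rw [← h]
  unfold fF dS QD.chr Zf
  rw [dl_comm l k, Jr_anti l k, Jr_anti k j, Jr_anti l j, dl_comm k j, dl_comm l j]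
  unfold sS
  rw [dl_comm k j, dl_comm l j]
  linear_combination (x i * (x k * dl j l - x l * dl j k)) * hrel

end Pool.Agent.H21.GBC
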