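import Pool.Agent.H21.GBC.Mixed

/-!
# The nine-parameter family of mixed curvature tensors: contractions and `L_2`
-/

open scoped BigOperators

namespace Pool.Agent.H21.GBC
open Pool.Agent.H91.GBC

lemma tG_anti1 (c : Fin 9 → ℝ) (x : Eu 6) (k l i j : Fin 6) :
    tG c x l k i j = - tG c x k l i j := by
  unfold tG Zf
  rw [Jr_anti l k]
  ring

lemma tG_anti2 (c : Fin 9 → ℝ) (x : Eu 6) (k l i j : Fin 6) :
    tG c x k l j i = - tG c x k l i j := by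
  unfold tG Zf
  rw [Jr_anti j i]
  ring

/-- coefficient of `δ` in the Ricci contraction -/
noncomputable def ga (c : Fin 9 → ℝ) (t : ℝ) : ℝ := c 5 * t + 3 * c 6 + 5 * c 7 + c 8 * t
/-- coefficient of `x ⊗ x` in the Ricci contraction -/
noncomputable def gb (c : Fin 9 → ℝ) (t : ℝ) : ℝ := c 0 * t - c 1 - c 2 - c 3 - c 4 + 4 * c 8
/-- coefficient of `Jx ⊗ Jx` in the Ricci contraction -/
noncomputable def gc (c : Fin 9 → ℝ) (t : ℝ) : ℝ := c 0 * t - c 1 - c 2 - c 3 - c 4 + 4 * c 5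

lemma ricT_tG (c : Fin 9 → ℝ) (x : Eu 6) (k i : Fin 6) :
    ricT (tG c x) k i = ga c (‖x‖ ^ 2) * dl i k + gb c (‖x‖ ^ 2) * (x i * x k)
      + gc c (‖x‖ ^ 2) * (Yv x i * Yv x k) := by
  unfold ricT
  have hd : ∀ j, dl j j = 1 := by intro j; simp [dl]
  have h : ∀ j, tG c x k j i j
      = (c 0 * x i * x k + c 5 * dl i k) * (Yv x j * Yv x j)
        + (- c 0 * (x i * Yv x k + Yv x i * x k)) * (x j * Yv x j)
        + (c 0 * Yv x i * Yv x k + c 8 * dl i k) * (x j * x j)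
        + (c 1 * x k) * (Jr i j * Yv x j)
        + (- c 1 * Yv x k) * (Jr i j * x j)
        + (c 2 * x i) * (Jr k j * Yv x j)
        + (- c 2 * Yv x i) * (Jr k j * x j)
        + (c 3 * Jr i k) * (x j * Yv x j)
        + (- c 3 * Yv x k) * (Jr i j * x j)
        + (- c 3 * x i) * (Yv x j * Jr j k)
        + (c 4 * Yv x i) * (x j * Jr j k)
        + (- c 4 * Jr i k) * (x j * Yv x j)
        + (c 4 * x k) * (Jr i j * Yv x j)
        + (c 5 * Yv x i * Yv x k) * 1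
        + (- c 5 * Yv x k) * (dl i j * Yv x j)
        + (- c 5 * Yv x i) * (Yv x j * dl j k)
        + (- 3 * c 6) * (Jr i j * Jr j k)
        + (c 7 * dl i k) * 1
        + (- c 7) * (dl i j * dl j k)
        + (c 8 * x i * x k) * 1
        + (- c 8 * x k) * (dl i j * x j)
        + (- c 8 * x i) * (x j * dl j k) := by
    intro j
    unfold tG Zf
    rw [Jr_self j, hd j, show Jr j k = - Jr k j from Jr_anti j k]
    ring
  rw [Finset.sum_congr rfl fun j _ => h j]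
  simp only [Finset.sum_add_distrib, ← Finset.mul_sum]
  rw [sum_YY, sum_xY, sum_xx, sum_JY, sum_Jx, sum_JY, sum_Jx, sum_YJ, sum_xJ,
    sum_dl_mul i (fun j => Yv x j), sum_mul_dl k (fun j => Yv x j), Jr_sq,
    sum_dl_mul i (fun j => dl j k), sum_dl_mul i (fun j => x j), sum_mul_dl k (fun j => x j)]
  unfold ga gb gc
  simp only [Finset.sum_const, Finset.card_univ, Fintype.card_fin, nsmul_eq_mul]
  push_cast
  ring

lemma scT_tG (c : Fin 9 → ℝ) (x : Eu 6) :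
    scT (tG c x) = 6 * ga c (‖x‖ ^ 2) + gb c (‖x‖ ^ 2) * ‖x‖ ^ 2 + gc c (‖x‖ ^ 2) * ‖x‖ ^ 2 := by
  unfold scT
  simp only [ricT_tG]
  exact QD.sum_ric_form x _ _ _

/-- the closed form as a function of scalars -/
noncomputable def tGG (c : Fin 9 → ℝ)
    (xk yk xl yl xi yi xj yj Jij Jkl Jik Jil Jjk Jjl dik dil djk djl : ℝ) : ℝ :=
  c 0 * (xi * yj - xj * yi) * (xk * yl - xl * yk) + c 1 * Jij * (xk * yl - xl * yk)
    + c 2 * (xi * yj - xj * yi) * Jkl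
    + c 3 * (xj * (Jik * yl - Jil * yk) - xi * (Jjk * yl - Jjl * yk))
    + c 4 * (yi * (xl * Jjk - xk * Jjl) - yj * (xl * Jik - xk * Jil))
    + c 5 * (dik * yj * yl + yi * yk * djl - dil * yj * yk - yi * yl * djk)
    + c 6 * (Jik * Jjl - Jil * Jjk + 2 * Jij * Jkl)
    + c 7 * (dik * djl - dil * djk)
    + c 8 * (dik * xj * xl + xi * xk * djl - dil * xj * xk - xi * xl * djk)

lemma sl_j (c : Fin 9 → ℝ) (xk yk xl yl xi yi Jkl Jik Jil dik dil : ℝ)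
    (w X Y P Q R S T : Fin 6 → ℝ) :
    ∑ j, w j * tGG c xk yk xl yl xi yi (X j) (Y j) (P j) Jkl Jik Jil (Q j) (R j)
        dik dil (S j) (T j)
      = tGG c xk yk xl yl xi yi (∑ j, w j * X j) (∑ j, w j * Y j) (∑ j, w j * P j)
        Jkl Jik Jil (∑ j, w j * Q j) (∑ j, w j * R j) dik dil (∑ j, w j * S j)
        (∑ j, w j * T j) := by
  have h : ∀ a b p q r s t : ℝ, tGG c xk yk xl yl xi yi a b p Jkl Jik Jil q r dik dil s t
      = tGG c xk yk xl yl xi yi 1 0 0 Jkl Jik Jil 0 0 dik dil 0 0 * a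
        + tGG c xk yk xl yl xi yi 0 1 0 Jkl Jik Jil 0 0 dik dil 0 0 * b
        + tGG c xk yk xl yl xi yi 0 0 1 Jkl Jik Jil 0 0 dik dil 0 0 * p
        + tGG c xk yk xl yl xi yi 0 0 0 Jkl Jik Jil 1 0 dik dil 0 0 * q
        + tGG c xk yk xl yl xi yi 0 0 0 Jkl Jik Jil 0 1 dik dil 0 0 * r
        + tGG c xk yk xl yl xi yi 0 0 0 Jkl Jik Jil 0 0 dik dil 1 0 * s
        + tGG c xk yk xl yl xi yi 0 0 0 Jkl Jik Jil 0 0 dik dil 0 1 * t := by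
    intros; unfold tGG; ring
  have h2 : ∀ j, w j * tGG c xk yk xl yl xi yi (X j) (Y j) (P j) Jkl Jik Jil (Q j) (R j)
        dik dil (S j) (T j)
      = tGG c xk yk xl yl xi yi 1 0 0 Jkl Jik Jil 0 0 dik dil 0 0 * (w j * X j)
        + tGG c xk yk xl yl xi yi 0 1 0 Jkl Jik Jil 0 0 dik dil 0 0 * (w j * Y j)
        + tGG c xk yk xl yl xi yi 0 0 1 Jkl Jik Jil 0 0 dik dil 0 0 * (w j * P j)
        + tGG c xk yk xl yl xi yi 0 0 0 Jkl Jik Jil 1 0 dik dil 0 0 * (w j * Q j)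
        + tGG c xk yk xl yl xi yi 0 0 0 Jkl Jik Jil 0 1 dik dil 0 0 * (w j * R j)
        + tGG c xk yk xl yl xi yi 0 0 0 Jkl Jik Jil 0 0 dik dil 1 0 * (w j * S j)
        + tGG c xk yk xl yl xi yi 0 0 0 Jkl Jik Jil 0 0 dik dil 0 1 * (w j * T j) := by
    intro j; rw [h]; ring
  rw [Finset.sum_congr rfl fun j _ => h2 j]
  simp only [Finset.sum_add_distrib, ← Finset.mul_sum]
  rw [h (∑ j, w j * X j)]

lemma sl_i (c : Fin 9 → ℝ) (xk yk xl yl xj yj Jkl Jjk Jjl djk djl : ℝ)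
    (w X Y P Q R S T : Fin 6 → ℝ) :
    ∑ i, w i * tGG c xk yk xl yl (X i) (Y i) xj yj (P i) Jkl (Q i) (R i) Jjk Jjl
        (S i) (T i) djk djl
      = tGG c xk yk xl yl (∑ i, w i * X i) (∑ i, w i * Y i) xj yj (∑ i, w i * P i)
        Jkl (∑ i, w i * Q i) (∑ i, w i * R i) Jjk Jjl (∑ i, w i * S i)
        (∑ i, w i * T i) djk djl := by
  have h : ∀ a b p q r s t : ℝ, tGG c xk yk xl yl a b xj yj p Jkl q r Jjk Jjl s t djk djl
      = tGG c xk yk xl yl 1 0 xj yj 0 Jkl 0 0 Jjk Jjl 0 0 djk djl * a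
        + tGG c xk yk xl yl 0 1 xj yj 0 Jkl 0 0 Jjk Jjl 0 0 djk djl * b
        + tGG c xk yk xl yl 0 0 xj yj 1 Jkl 0 0 Jjk Jjl 0 0 djk djl * p
        + tGG c xk yk xl yl 0 0 xj yj 0 Jkl 1 0 Jjk Jjl 0 0 djk djl * q
        + tGG c xk yk xl yl 0 0 xj yj 0 Jkl 0 1 Jjk Jjl 0 0 djk djl * r
        + tGG c xk yk xl yl 0 0 xj yj 0 Jkl 0 0 Jjk Jjl 1 0 djk djl * s
        + tGG c xk yk xl yl 0 0 xj yj 0 Jkl 0 0 Jjk Jjl 0 1 djk djl * t := by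
    intros; unfold tGG; ring
  have h2 : ∀ i, w i * tGG c xk yk xl yl (X i) (Y i) xj yj (P i) Jkl (Q i) (R i) Jjk Jjl
        (S i) (T i) djk djl
      = tGG c xk yk xl yl 1 0 xj yj 0 Jkl 0 0 Jjk Jjl 0 0 djk djl * (w i * X i)
        + tGG c xk yk xl yl 0 1 xj yj 0 Jkl 0 0 Jjk Jjl 0 0 djk djl * (w i * Y i)
        + tGG c xk yk xl yl 0 0 xj yj 1 Jkl 0 0 Jjk Jjl 0 0 djk djl * (w i * P i)
        + tGG c xk yk xl yl 0 0 xj yj 0 Jkl 1 0 Jjk Jjl 0 0 djk djl * (w i * Q i)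
        + tGG c xk yk xl yl 0 0 xj yj 0 Jkl 0 1 Jjk Jjl 0 0 djk djl * (w i * R i)
        + tGG c xk yk xl yl 0 0 xj yj 0 Jkl 0 0 Jjk Jjl 1 0 djk djl * (w i * S i)
        + tGG c xk yk xl yl 0 0 xj yj 0 Jkl 0 0 Jjk Jjl 0 1 djk djl * (w i * T i) := by
    intro i; rw [h]; ring
  rw [Finset.sum_congr rfl fun i _ => h2 i]
  simp only [Finset.sum_add_distrib, ← Finset.mul_sum]
  rw [h (∑ i, w i * X i)]

lemma sl_l (c : Fin 9 → ℝ) (xk yk xi yi xj yj Jij Jik Jjk dik djk : ℝ)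
    (w X Y P Q R S T : Fin 6 → ℝ) :
    ∑ l, w l * tGG c xk yk (X l) (Y l) xi yi xj yj Jij (P l) Jik (Q l) Jjk (R l)
        dik (S l) djk (T l)
      = tGG c xk yk (∑ l, w l * X l) (∑ l, w l * Y l) xi yi xj yj Jij (∑ l, w l * P l)
        Jik (∑ l, w l * Q l) Jjk (∑ l, w l * R l) dik (∑ l, w l * S l) djk
        (∑ l, w l * T l) := by
  have h : ∀ a b p q r s t : ℝ, tGG c xk yk a b xi yi xj yj Jij p Jik q Jjk r dik s djk t
      = tGG c xk yk 1 0 xi yi xj yj Jij 0 Jik 0 Jjk 0 dik 0 djk 0 * a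
        + tGG c xk yk 0 1 xi yi xj yj Jij 0 Jik 0 Jjk 0 dik 0 djk 0 * b
        + tGG c xk yk 0 0 xi yi xj yj Jij 1 Jik 0 Jjk 0 dik 0 djk 0 * p
        + tGG c xk yk 0 0 xi yi xj yj Jij 0 Jik 1 Jjk 0 dik 0 djk 0 * q
        + tGG c xk yk 0 0 xi yi xj yj Jij 0 Jik 0 Jjk 1 dik 0 djk 0 * r
        + tGG c xk yk 0 0 xi yi xj yj Jij 0 Jik 0 Jjk 0 dik 1 djk 0 * s
        + tGG c xk yk 0 0 xi yi xj yj Jij 0 Jik 0 Jjk 0 dik 0 djk 1 * t := by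
    intros; unfold tGG; ring
  have h2 : ∀ l, w l * tGG c xk yk (X l) (Y l) xi yi xj yj Jij (P l) Jik (Q l) Jjk (R l)
        dik (S l) djk (T l)
      = tGG c xk yk 1 0 xi yi xj yj Jij 0 Jik 0 Jjk 0 dik 0 djk 0 * (w l * X l)
        + tGG c xk yk 0 1 xi yi xj yj Jij 0 Jik 0 Jjk 0 dik 0 djk 0 * (w l * Y l)
        + tGG c xk yk 0 0 xi yi xj yj Jij 1 Jik 0 Jjk 0 dik 0 djk 0 * (w l * P l)
        + tGG c xk yk 0 0 xi yi xj yj Jij 0 Jik 1 Jjk 0 dik 0 djk 0 * (w l * Q l)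
        + tGG c xk yk 0 0 xi yi xj yj Jij 0 Jik 0 Jjk 1 dik 0 djk 0 * (w l * R l)
        + tGG c xk yk 0 0 xi yi xj yj Jij 0 Jik 0 Jjk 0 dik 1 djk 0 * (w l * S l)
        + tGG c xk yk 0 0 xi yi xj yj Jij 0 Jik 0 Jjk 0 dik 0 djk 1 * (w l * T l) := by
    intro l; rw [h]; ring
  rw [Finset.sum_congr rfl fun l _ => h2 l]
  simp only [Finset.sum_add_distrib, ← Finset.mul_sum]
  rw [h (∑ l, w l * X l)]

lemma sl_k (c : Fin 9 → ℝ) (xl yl xi yi xj yj Jij Jil Jjl dil djl : ℝ)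
    (w X Y P Q R S T : Fin 6 → ℝ) :
    ∑ k, w k * tGG c (X k) (Y k) xl yl xi yi xj yj Jij (P k) (Q k) Jil (R k) Jjl
        (S k) dil (T k) djl
      = tGG c (∑ k, w k * X k) (∑ k, w k * Y k) xl yl xi yi xj yj Jij (∑ k, w k * P k)
        (∑ k, w k * Q k) Jil (∑ k, w k * R k) Jjl (∑ k, w k * S k) dil
        (∑ k, w k * T k) djl := by
  have h : ∀ a b p q r s t : ℝ, tGG c a b xl yl xi yi xj yj Jij p q Jil r Jjl s dil t djl
      = tGG c 1 0 xl yl xi yi xj yj Jij 0 0 Jil 0 Jjl 0 dil 0 djl * a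
        + tGG c 0 1 xl yl xi yi xj yj Jij 0 0 Jil 0 Jjl 0 dil 0 djl * b
        + tGG c 0 0 xl yl xi yi xj yj Jij 1 0 Jil 0 Jjl 0 dil 0 djl * p
        + tGG c 0 0 xl yl xi yi xj yj Jij 0 1 Jil 0 Jjl 0 dil 0 djl * q
        + tGG c 0 0 xl yl xi yi xj yj Jij 0 0 Jil 1 Jjl 0 dil 0 djl * r
        + tGG c 0 0 xl yl xi yi xj yj Jij 0 0 Jil 0 Jjl 1 dil 0 djl * s
        + tGG c 0 0 xl yl xi yi xj yj Jij 0 0 Jil 0 Jjl 0 dil 1 djl * t := by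
    intros; unfold tGG; ring
  have h2 : ∀ k, w k * tGG c (X k) (Y k) xl yl xi yi xj yj Jij (P k) (Q k) Jil (R k) Jjl
        (S k) dil (T k) djl
      = tGG c 1 0 xl yl xi yi xj yj Jij 0 0 Jil 0 Jjl 0 dil 0 djl * (w k * X k)
        + tGG c 0 1 xl yl xi yi xj yj Jij 0 0 Jil 0 Jjl 0 dil 0 djl * (w k * Y k)
        + tGG c 0 0 xl yl xi yi xj yj Jij 1 0 Jil 0 Jjl 0 dil 0 djl * (w k * P k)
        + tGG c 0 0 xl yl xi yi xj yj Jij 0 1 Jil 0 Jjl 0 dil 0 djl * (w k * Q k)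
        + tGG c 0 0 xl yl xi yi xj yj Jij 0 0 Jil 1 Jjl 0 dil 0 djl * (w k * R k)
        + tGG c 0 0 xl yl xi yi xj yj Jij 0 0 Jil 0 Jjl 1 dil 0 djl * (w k * S k)
        + tGG c 0 0 xl yl xi yi xj yj Jij 0 0 Jil 0 Jjl 0 dil 1 djl * (w k * T k) := by
    intro k; rw [h]; ring
  rw [Finset.sum_congr rfl fun k _ => h2 k]
  simp only [Finset.sum_add_distrib, ← Finset.mul_sum]
  rw [h (∑ k, w k * X k)]

lemma tG_eq_tGG (c : Fin 9 → ℝ) (x : Eu 6) (k l i j : Fin 6) :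
    tG c x k l i j = tGG c (x k) (Yv x k) (x l) (Yv x l) (x i) (Yv x i) (x j) (Yv x j)
      (Jr i j) (Jr k l) (Jr i k) (Jr i l) (Jr j k) (Jr j l) (dl i k) (dl i l) (dl j k)
      (dl j l) := by
  unfold tG tGG Zf
  ring

lemma pull_tG (c : Fin 9 → ℝ) {U : Fin 6 → Fin 6 → ℝ} {x : Eu 6} (hU : IsFrame U x)
    (a b e d : Fin 6) :
    pull U (tG c x) a b e d
      = tGG c
      (‖x‖ * dl a 0) (‖x‖ * dl a 1) (‖x‖ * dl b 0) (‖x‖ * dl b 1) (‖x‖ * dl e 0) (‖x‖ * dl e 1)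
      (‖x‖ * dl d 0) (‖x‖ * dl d 1)
      (Jr e d) (Jr a b) (Jr e a) (Jr e b) (Jr d a) (Jr d b) (dl e a) (dl e b) (dl d a)
      (dl d b) := by
  unfold pull
  simp only [tG_eq_tGG]
  have s1 : ∀ k l i, ∑ j, U j d * tGG c (x k) (Yv x k) (x l) (Yv x l) (x i) (Yv x i) (x j)
      (Yv x j) (Jr i j) (Jr k l) (Jr i k) (Jr i l) (Jr j k) (Jr j l) (dl i k) (dl i l) (dl j k)
      (dl j l)
      = tGG c (x k) (Yv x k) (x l) (Yv x l) (x i) (Yv x i) (‖x‖ * dl d 0) (‖x‖ * dl d 1)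
      (∑ j, U j d * Jr i j) (Jr k l) (Jr i k) (Jr i l) (∑ j, U j d * Jr j k)
      (∑ j, U j d * Jr j l) (dl i k) (dl i l) (∑ j, U j d * dl j k) (∑ j, U j d * dl j l) := by
    intro k l i
    rw [sl_j (w := fun j => U j d) (X := fun j => x j) (Y := fun j => Yv x j)
      (P := fun j => Jr i j) (Q := fun j => Jr j k) (R := fun j => Jr j l)
      (S := fun j => dl j k) (T := fun j => dl j l)]
    rw [frame_x hU, frame_y hU]
  simp only [s1]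
  have s2 : ∀ k l, ∑ i, U i e * tGG c (x k) (Yv x k) (x l) (Yv x l) (x i) (Yv x i)
      (‖x‖ * dl d 0) (‖x‖ * dl d 1)
      (∑ j, U j d * Jr i j) (Jr k l) (Jr i k) (Jr i l) (∑ j, U j d * Jr j k)
      (∑ j, U j d * Jr j l) (dl i k) (dl i l) (∑ j, U j d * dl j k) (∑ j, U j d * dl j l)
      = tGG c (x k) (Yv x k) (x l) (Yv x l) (‖x‖ * dl e 0) (‖x‖ * dl e 1)
      (‖x‖ * dl d 0) (‖x‖ * dl d 1)
      (Jr e d) (Jr k l) (∑ i, U i e * Jr i k) (∑ i, U i e * Jr i l) (∑ j, U j d * Jr j k)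
      (∑ j, U j d * Jr j l) (∑ i, U i e * dl i k) (∑ i, U i e * dl i l) (∑ j, U j d * dl j k)
      (∑ j, U j d * dl j l) := by
    intro k l
    rw [sl_i (w := fun i => U i e) (X := fun i => x i) (Y := fun i => Yv x i)
      (P := fun i => ∑ j, U j d * Jr i j) (Q := fun i => Jr i k) (R := fun i => Jr i l)
      (S := fun i => dl i k) (T := fun i => dl i l)]
    rw [frame_x hU, frame_y hU, hU.hJ]
  simp only [s2]
  have s3 : ∀ k, ∑ l, U l b * tGG c (x k) (Yv x k) (x l) (Yv x l) (‖x‖ * dl e 0) (‖x‖ * dl e 1)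
      (‖x‖ * dl d 0) (‖x‖ * dl d 1)
      (Jr e d) (Jr k l) (∑ i, U i e * Jr i k) (∑ i, U i e * Jr i l) (∑ j, U j d * Jr j k)
      (∑ j, U j d * Jr j l) (∑ i, U i e * dl i k) (∑ i, U i e * dl i l) (∑ j, U j d * dl j k)
      (∑ j, U j d * dl j l)
      = tGG c (x k) (Yv x k) (‖x‖ * dl b 0) (‖x‖ * dl b 1) (‖x‖ * dl e 0)
      (‖x‖ * dl e 1) (‖x‖ * dl d 0) (‖x‖ * dl d 1)
      (Jr e d) (∑ l, U l b * Jr k l) (∑ i, U i e * Jr i k) (Jr e b) (∑ j, U j d * Jr j k)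
      (Jr d b) (∑ i, U i e * dl i k) (dl e b) (∑ j, U j d * dl j k) (dl d b) := by
    intro k
    rw [sl_l (w := fun l => U l b) (X := fun l => x l) (Y := fun l => Yv x l)
      (P := fun l => Jr k l) (Q := fun l => ∑ i, U i e * Jr i l)
      (R := fun l => ∑ j, U j d * Jr j l) (S := fun l => ∑ i, U i e * dl i l)
      (T := fun l => ∑ j, U j d * dl j l)]
    rw [frame_x hU, frame_y hU, frame_J' hU, frame_J' hU, frame_dl hU, frame_dl hU]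
  simp only [s3]
  rw [sl_k (w := fun k => U k a) (X := fun k => x k) (Y := fun k => Yv x k)
      (P := fun k => ∑ l, U l b * Jr k l) (Q := fun k => ∑ i, U i e * Jr i k)
      (R := fun k => ∑ j, U j d * Jr j k) (S := fun k => ∑ i, U i e * dl i k)
      (T := fun k => ∑ j, U j d * dl j k)]
  rw [frame_x hU, frame_y hU, frame_J' hU, frame_J' hU, frame_dl hU, frame_dl hU, hU.hJ]

/-- the nine integer tensors -/
def tz (s : Fin 9) (k l i j : Fin 6) : ℤ :=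
  ![(xz i * yz j - xz j * yz i) * (xz k * yz l - xz l * yz k),
    Jz i j * (xz k * yz l - xz l * yz k),
    (xz i * yz j - xz j * yz i) * Jz k l,
    xz j * (Jz i k * yz l - Jz i l * yz k) - xz i * (Jz j k * yz l - Jz j l * yz k),
    yz i * (xz l * Jz j k - xz k * Jz j l) - yz j * (xz l * Jz i k - xz k * Jz i l),
    dz i k * yz j * yz l + yz i * yz k * dz j l - dz i l * yz j * yz k - yz i * yz l * dz j k,
    Jz i k * Jz j l - Jz i l * Jz j k + 2 * Jz i j * Jz k l,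
    dz i k * dz j l - dz i l * dz j k,
    dz i k * xz j * xz l + xz i * xz k * dz j l - dz i l * xz j * xz k - xz i * xz l * dz j k] s

/-- the Gram matrix -/
def gz : Fin 9 → Fin 9 → ℤ :=
  ![![4, -4, -4, -4, -4, 4, 12, 4, 4],
    ![-4, 4, 12, 4, 4, -4, -28, -4, -4],
    ![-4, 12, 4, 4, 4, -4, -28, -4, -4],
    ![-4, 4, 4, 4, 20, -4, -28, -4, -4],
    ![-4, 4, 4, 20, 4, -4, -28, -4, -4],
    ![4, -4, -4, -4, -4, 20, 12, 20, 4],
    ![12, -28, -28, -28, -28, 12, 252, 36, 12],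
    ![4, -4, -4, -4, -4, 20, 36, 60, 20],
    ![4, -4, -4, -4, -4, 4, 12, 20, 20]]

set_option maxRecDepth 100000 in
lemma gram_tz : ∀ s t, gram (tz s) (tz t) = gz s t := by decide +kernel

lemma sum_tz (e : Fin 9 → ℝ) :
    ∑ a, ∑ b, ∑ c, ∑ d, (∑ s, e s * tr (tz s) a b c d) * (∑ t, e t * tr (tz t) c d a b)
      = ∑ s, ∑ t, e s * e t * (gz s t : ℝ) := by
  have h1 : ∀ a b c d : Fin 6, (∑ s, e s * tr (tz s) a b c d) * (∑ t, e t * tr (tz t) c d a b)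
      = ∑ s, ∑ t, e s * e t * (tr (tz s) a b c d * tr (tz t) c d a b) := by
    intro a b c d
    rw [Finset.sum_mul_sum]
    exact Finset.sum_congr rfl fun s _ => Finset.sum_congr rfl fun t _ => by ring
  simp only [h1]
  have h2 : ∀ s t, ∑ a, ∑ b, ∑ c, ∑ d, e s * e t * (tr (tz s) a b c d * tr (tz t) c d a b)
      = e s * e t * (gz s t : ℝ) := by
    intro s t
    rw [← gram_tz, ← gram_real]
    simp only [Finset.mul_sum]
  simp only [← h2]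
  calc ∑ a, ∑ b, ∑ c, ∑ d, ∑ s, ∑ t, e s * e t * (tr (tz s) a b c d * tr (tz t) c d a b)
      = ∑ a, ∑ b, ∑ c, ∑ s, ∑ d, ∑ t, e s * e t * (tr (tz s) a b c d * tr (tz t) c d a b) :=
        Finset.sum_congr rfl fun a _ => Finset.sum_congr rfl fun b _ =>
          Finset.sum_congr rfl fun c _ => Finset.sum_comm
    _ = ∑ a, ∑ b, ∑ s, ∑ c, ∑ d, ∑ t, e s * e t * (tr (tz s) a b c d * tr (tz t) c d a b) :=
        Finset.sum_congr rfl fun a _ => Finset.sum_congr rfl fun b _ => Finset.sum_comm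
    _ = ∑ a, ∑ s, ∑ b, ∑ c, ∑ d, ∑ t, e s * e t * (tr (tz s) a b c d * tr (tz t) c d a b) :=
        Finset.sum_congr rfl fun a _ => Finset.sum_comm
    _ = ∑ s, ∑ a, ∑ b, ∑ c, ∑ d, ∑ t, e s * e t * (tr (tz s) a b c d * tr (tz t) c d a b) :=
        Finset.sum_comm
    _ = _ := by
        refine Finset.sum_congr rfl fun s _ => ?_
        calc ∑ a, ∑ b, ∑ c, ∑ d, ∑ t, e s * e t * (tr (tz s) a b c d * tr (tz t) c d a b)
            = ∑ a, ∑ b, ∑ c, ∑ t, ∑ d, e s * e t * (tr (tz s) a b c d * tr (tz t) c d a b) :=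
              Finset.sum_congr rfl fun a _ => Finset.sum_congr rfl fun b _ =>
                Finset.sum_congr rfl fun c _ => Finset.sum_comm
          _ = ∑ a, ∑ b, ∑ t, ∑ c, ∑ d, e s * e t * (tr (tz s) a b c d * tr (tz t) c d a b) :=
              Finset.sum_congr rfl fun a _ => Finset.sum_congr rfl fun b _ => Finset.sum_comm
          _ = ∑ a, ∑ t, ∑ b, ∑ c, ∑ d, e s * e t * (tr (tz s) a b c d * tr (tz t) c d a b) :=
              Finset.sum_congr rfl fun a _ => Finset.sum_comm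
          _ = ∑ t, ∑ a, ∑ b, ∑ c, ∑ d, e s * e t * (tr (tz s) a b c d * tr (tz t) c d a b) :=
              Finset.sum_comm

/-- the coefficients in the frame -/
noncomputable def ef (c : Fin 9 → ℝ) (r : ℝ) : Fin 9 → ℝ :=
  ![c 0 * r ^ 4, c 1 * r ^ 2, c 2 * r ^ 2, c 3 * r ^ 2, c 4 * r ^ 2, c 5 * r ^ 2, c 6, c 7,
    c 8 * r ^ 2]

lemma tGG_frame (c : Fin 9 → ℝ) (r : ℝ) (a b e d : Fin 6) :
    tGG c (r * dl a 0) (r * dl a 1) (r * dl b 0) (r * dl b 1) (r * dl e 0) (r * dl e 1)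
      (r * dl d 0) (r * dl d 1)
      (Jr e d) (Jr a b) (Jr e a) (Jr e b) (Jr d a) (Jr d b) (dl e a) (dl e b) (dl d a)
      (dl d b)
    = ∑ s, ef c r s * tr (tz s) a b e d := by
  have h0 : ∀ i : Fin 6, ((xz i : ℤ) : ℝ) = dl i 0 := by
    intro i; unfold xz dl; split_ifs <;> simp
  have h1 : ∀ i : Fin 6, ((yz i : ℤ) : ℝ) = dl i 1 := by
    intro i; unfold yz dl; split_ifs <;> simp
  have h2 : ∀ i j : Fin 6, ((dz i j : ℤ) : ℝ) = dl i j := by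
    intro i j; unfold dz dl; split_ifs <;> simp
  have h3 : ∀ i j : Fin 6, ((Jz i j : ℤ) : ℝ) = Jr i j := fun i j => rfl
  simp only [Fin.sum_univ_succ, Fin.sum_univ_zero]
  simp only [ef, tr, tz, Matrix.cons_val_zero, Matrix.cons_val_succ]
  push_cast
  simp only [h0, h1, h2, h3]
  unfold tGG
  ring

/-- the quadratic form of the full norm -/
noncomputable def nq (e : Fin 9 → ℝ) : ℝ :=
  4 * e 0 ^ 2 - 8 * e 0 * e 1 - 8 * e 0 * e 2 - 8 * e 0 * e 3 - 8 * e 0 * e 4 + 8 * e 0 * e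
      5 + 24 * e 0 * e 6 + 8 * e 0 * e 7 + 8 * e 0 * e 8 + 4 * e 1 ^ 2 + 24 * e 1 * e 2 + 8 * e
      1 * e 3 + 8 * e 1 * e 4 - 8 * e 1 * e 5 - 56 * e 1 * e 6 - 8 * e 1 * e 7 - 8 * e 1 * e 8 +
      4 * e 2 ^ 2 + 8 * e 2 * e 3 + 8 * e 2 * e 4 - 8 * e 2 * e 5 - 56 * e 2 * e 6 - 8 * e 2 * e
      7 - 8 * e 2 * e 8 + 4 * e 3 ^ 2 + 40 * e 3 * e 4 - 8 * e 3 * e 5 - 56 * e 3 * e 6 - 8 * e
      3 * e 7 - 8 * e 3 * e 8 + 4 * e 4 ^ 2 - 8 * e 4 * e 5 - 56 * e 4 * e 6 - 8 * e 4 * e 7 - 8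
      * e 4 * e 8 + 20 * e 5 ^ 2 + 24 * e 5 * e 6 + 40 * e 5 * e 7 + 8 * e 5 * e 8 + 252 * e 6 ^
      2 + 72 * e 6 * e 7 + 24 * e 6 * e 8 + 60 * e 7 ^ 2 + 40 * e 7 * e 8 + 20 * e 8 ^ 2

theorem norm_tG (c : Fin 9 → ℝ) (x : Eu 6) :
    ∑ k, ∑ l, ∑ i, ∑ j, tG c x k l i j * tG c x i j k l = nq (ef c ‖x‖) := by
  obtain ⟨U, hU⟩ := exists_frame x
  have h := parseval4 hU.row (fun k l i j => tG c x i j k l) (tG c x)
  rw [h]
  have h2 : ∀ a b e d, pull U (fun k l i j => tG c x i j k l) a b e d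
      = pull U (tG c x) e d a b :=
    fun a b e d => pull_swap U (tG c x) a b e d
  simp only [h2, pull_tG c hU, tGG_frame]
  rw [sum_tz]
  generalize ef c ‖x‖ = e
  have e0 : ∀ f : Fin 9 → ℝ, ∑ s, f s
      = f 0 + f 1 + f 2 + f 3 + f 4 + f 5 + f 6 + f 7 + f 8 := by
    intro f
    rw [Fin.sum_univ_castSucc, Fin.sum_univ_eight]
    rfl
  simp only [e0]
  simp only [gz, Matrix.cons_val_zero, Matrix.cons_val_one, Matrix.cons_val]
  unfold nq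
  push_cast
  ring

theorem L2_gg (D E : QD) (x : Eu 6) :
    L2 (gg D E) x = nq (ef (cc D E (‖x‖ ^ 2)) ‖x‖)
      - 4 * (6 * ga (cc D E (‖x‖ ^ 2)) (‖x‖ ^ 2) ^ 2
        + 2 * ga (cc D E (‖x‖ ^ 2)) (‖x‖ ^ 2) * gb (cc D E (‖x‖ ^ 2)) (‖x‖ ^ 2) * ‖x‖ ^ 2
        + 2 * ga (cc D E (‖x‖ ^ 2)) (‖x‖ ^ 2) * gc (cc D E (‖x‖ ^ 2)) (‖x‖ ^ 2) * ‖x‖ ^ 2
        + gb (cc D E (‖x‖ ^ 2)) (‖x‖ ^ 2) ^ 2 * ‖x‖ ^ 4
        + gc (cc D E (‖x‖ ^ 2)) (‖x‖ ^ 2) ^ 2 * ‖x‖ ^ 4)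
      + (6 * ga (cc D E (‖x‖ ^ 2)) (‖x‖ ^ 2) + gb (cc D E (‖x‖ ^ 2)) (‖x‖ ^ 2) * ‖x‖ ^ 2
        + gc (cc D E (‖x‖ ^ 2)) (‖x‖ ^ 2) * ‖x‖ ^ 2) ^ 2 := by
  unfold L2
  simp only [curv_gg]
  set c := cc D E (‖x‖ ^ 2) with hc
  have h := L2_aux (tG c x) (fun k l i j => tG_anti1 c x k l i j)
    (fun k l i j => tG_anti2 c x k l i j)
  rw [h, norm_tG, scT_tG]
  have h2 := QD.sum_ric_sq x (ga c (‖x‖ ^ 2)) (gb c (‖x‖ ^ 2)) (gc c (‖x‖ ^ 2))
  simp only [ricT_tG]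
  rw [h2]

end Pool.Agent.H21.GBC
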